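import Mathlib
import Pool.Agent.Lib.H38H.Stm
import Pool.Agent.Lib.H38H.PR3
import Pool.Agent.Lib.H38H.PR7

/-!
Project H38H, module BR (`ManyBridged`, PROOF.md section (1a)): definitions and small API.

Points are the elements of `V × Fin 3`. A pairing is an element of `PM (V × Fin 3)`.
-/

set_option autoImplicit false

namespace Pool.Agent.H38H

theorem br_inv {α : Type} (f : PM α) (x : α) : f.1 (f.1 x) = x := f.2.1 x

theorem br_ne {α : Type} (f : PM α) (x : α) : f.1 x ≠ x := f.2.2 x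

theorem br_ext {α : Type} {f g : PM α} (h : ∀ x, f.1 x = g.1 x) : f = g :=
  Subtype.ext (Equiv.ext h)

/-- conjugation of a perfect matching by the transposition of `a` and `b` -/
def brConj {α : Type} [DecidableEq α] (f : PM α) (a b : α) : PM α :=
  ⟨Equiv.swap a b * f.1 * Equiv.swap a b, by
    refine ⟨fun x => ?_, fun x h => ?_⟩
    · simp only [Equiv.Perm.coe_mul, Function.comp_apply, Equiv.swap_apply_self, f.2.1]
    · simp only [Equiv.Perm.coe_mul, Function.comp_apply] at h
      apply f.2.2 (Equiv.swap a b x)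
      have h1 := congrArg (Equiv.swap a b) h
      rwa [Equiv.swap_apply_self] at h1⟩

theorem brConj_apply {α : Type} [DecidableEq α] (f : PM α) (a b x : α) :
    (brConj f a b).1 x = Equiv.swap a b (f.1 (Equiv.swap a b x)) := rfl

theorem brConj_conj {α : Type} [DecidableEq α] (f : PM α) (a b : α) :
    brConj (brConj f a b) a b = f := by
  apply br_ext
  intro x
  rw [brConj_apply, brConj_apply, Equiv.swap_apply_self, Equiv.swap_apply_self]

/-- the point `p` is bad: it lies on a loop or on one of several parallel pairs -/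
def BadPt {V : Type} (f : PM (V × Fin 3)) (p : V × Fin 3) : Prop :=
  (f.1 p).1 = p.1 ∨ ∃ q, q ≠ p ∧ q.1 = p.1 ∧ (f.1 q).1 = (f.1 p).1

/-- number of bad points -/
noncomputable def badN {V : Type} (f : PM (V × Fin 3)) : ℕ := Nat.card {p : V × Fin 3 // BadPt f p}

/-- the point `p'` is far from the point `p`, for the pairing `f` -/
def Far {V : Type} (f : PM (V × Fin 3)) (p p' : V × Fin 3) : Prop :=
  p'.1 ≠ p.1 ∧ p'.1 ≠ (f.1 p).1 ∧ (f.1 p').1 ≠ p.1 ∧ (f.1 p').1 ≠ (f.1 p).1 ∧ (f.1 p').1 ≠ p'.1 ∧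
    (∀ r, r.1 = p.1 → (f.1 r).1 ≠ p'.1) ∧ ∀ r, r.1 = (f.1 p).1 → (f.1 r).1 ≠ (f.1 p').1

/-- the switching: the pairs `{p, f p}`, `{p', f p'}` are replaced by `{p, p'}`, `{f p, f p'}` -/
noncomputable def brSw {V : Type} [DecidableEq V] (f : PM (V × Fin 3)) (p p' : V × Fin 3) :
    PM (V × Fin 3) := brConj f (f.1 p) p'

/-- the set `T` of vertices is closed for the pairing `R` -/
def BrClosed {V : Type} (R : PM (V × Fin 3)) (T : Finset V) : Prop :=
  ∀ p : V × Fin 3, p.1 ∈ T → (R.1 p).1 ∈ T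

/-- disconnected pairings -/
def BrDisc {V : Type} [Fintype V] (R : PM (V × Fin 3)) : Prop :=
  ∃ T : Finset V, T.Nonempty ∧ T ≠ Finset.univ ∧ BrClosed R T

/-! ### hanging a pendant piece -/

/-- adjacency of the piece: `0` is the vertex subdividing an edge, `1` the vertex of the piece adjacent
to `0`, and `2, 3, 4, 5` is a `K_4` whose edge `2 3` is subdivided by `1` -/
def pieceE : Finset (Sym2 (Fin 6)) :=
  {s(0, 1), s(1, 2), s(1, 3), s(2, 4), s(2, 5), s(3, 4), s(3, 5), s(4, 5)}

/-- subdivide the edge `e` of `G` and hang the piece on the new vertex -/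
def hang {V : Type} (G : SimpleGraph V) (e : Sym2 V) : SimpleGraph (V ⊕ Fin 6) :=
  SimpleGraph.fromRel fun a b =>
    match a, b with
    | Sum.inl u, Sum.inl v => G.Adj u v ∧ s(u, v) ≠ e
    | Sum.inl u, Sum.inr i => u ∈ e ∧ i = 0
    | Sum.inr i, Sum.inl u => u ∈ e ∧ i = 0
    | Sum.inr i, Sum.inr j => s(i, j) ∈ pieceE

theorem hang_ll {V : Type} (G : SimpleGraph V) (e : Sym2 V) (u v : V) :
    (hang G e).Adj (Sum.inl u) (Sum.inl v) ↔ G.Adj u v ∧ s(u, v) ≠ e := by
  unfold hang
  rw [SimpleGraph.fromRel_adj]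
  constructor
  · rintro ⟨-, h | h⟩
    · exact h
    · exact ⟨h.1.symm, by rw [Sym2.eq_swap]; exact h.2⟩
  · intro h
    exact ⟨fun h2 => h.1.ne (Sum.inl.inj h2), Or.inl h⟩

theorem hang_lr {V : Type} (G : SimpleGraph V) (e : Sym2 V) (u : V) (i : Fin 6) :
    (hang G e).Adj (Sum.inl u) (Sum.inr i) ↔ u ∈ e ∧ i = 0 := by
  unfold hang
  rw [SimpleGraph.fromRel_adj]
  constructor
  · rintro ⟨-, h | h⟩ <;> exact h
  · intro h
    exact ⟨Sum.inl_ne_inr, Or.inl h⟩

theorem hang_rr {V : Type} (G : SimpleGraph V) (e : Sym2 V) (i j : Fin 6) :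
    (hang G e).Adj (Sum.inr i) (Sum.inr j) ↔ s(i, j) ∈ pieceE := by
  unfold hang
  rw [SimpleGraph.fromRel_adj]
  constructor
  · rintro ⟨-, h | h⟩
    · exact h
    · change s(j, i) ∈ pieceE at h
      rwa [Sym2.eq_swap] at h
  · intro h
    refine ⟨fun h2 => ?_, Or.inl h⟩
    rw [Sum.inr.inj h2] at h
    revert h
    generalize j = j
    revert j
    decide

/-- the graphs on which we hang the piece -/
def Good {V : Type} (G : SimpleGraph V) : Prop :=
  Cubic G ∧ G.Connected ∧ ∀ W : Finset V, W.card ≤ 5 → eIn G W < W.card + 2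

/-- the increasing numbering of `s` and of its complement -/
noncomputable def brE {M : ℕ} (s : Finset (Fin (M + 6))) (hs : s.card = M) : Fin M ⊕ Fin 6 ≃ Fin (M + 6) :=
  finSumEquivOfFinset hs (by rw [Finset.card_compl, Fintype.card_fin, hs]; omega)

/-- the graph obtained by hanging a piece, on `Fin (M + 6)`; `s` is the set of the old vertices -/
noncomputable def brG {M : ℕ} (s : Finset (Fin (M + 6))) (hs : s.card = M) (G : SimpleGraph (Fin M))
    (e : Sym2 (Fin M)) : SimpleGraph (Fin (M + 6)) :=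
  (hang G e).comap (brE s hs).symm

end Pool.Agent.H38H
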