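import Mathlib
import Pool.Agent.Lib.H38H.BR.Defs

/-!
H38H, chunk BR1 (M): the expected number of bad points is at most 9. Counting with PR7 (card_fix2, card_fix4).
-/

set_option autoImplicit false

namespace Pool.Agent.H38H

open Classical

theorem b1_S {V : Type} [Fintype V] (p : V × Fin 3) :
    (Finset.univ.filter fun q : V × Fin 3 => q ≠ p ∧ q.1 = p.1).card ≤ 2 := by
  have h1 : (Finset.univ.filter fun q : V × Fin 3 => q ≠ p ∧ q.1 = p.1) ⊆
      (Finset.univ.erase p.2).image (fun i => (p.1, i)) := by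
    intro q hq
    rw [Finset.mem_filter] at hq
    obtain ⟨-, h2, h3⟩ := hq
    rw [Finset.mem_image]
    refine ⟨q.2, ?_, ?_⟩
    · rw [Finset.mem_erase]
      exact ⟨fun h => h2 (Prod.ext h3 h), Finset.mem_univ _⟩
    · exact Prod.ext h3.symm rfl
  refine (Finset.card_le_card h1).trans (Finset.card_image_le.trans ?_)
  rw [Finset.card_erase_of_mem (Finset.mem_univ _), Finset.card_univ, Fintype.card_fin]

theorem b1_T {V : Type} [Fintype V] (p : V × Fin 3) :
    (Finset.univ.filter fun a : V × Fin 3 => a.1 ≠ p.1).card = Nat.card (V × Fin 3) - 3 := by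
  have h1 : (Finset.univ.filter fun a : V × Fin 3 => a.1 ≠ p.1) =
      (Finset.univ.erase p.1) ×ˢ (Finset.univ : Finset (Fin 3)) := by
    ext a
    simp
  rw [h1, Finset.card_product, Finset.card_erase_of_mem (Finset.mem_univ _), Finset.card_univ,
    Finset.card_univ, Fintype.card_fin, Nat.card_prod, Nat.card_eq_fintype_card,
    Nat.card_eq_fintype_card, Fintype.card_fin, Nat.sub_mul]

/-- the bound for a fixed point -/
theorem b1_point {V : Type} [Fintype V] (p : V × Fin 3) :
    (Nat.card (V × Fin 3) - 1) * Nat.card {R : PM (V × Fin 3) // BadPt R p} ≤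
      6 * Nat.card (PM (V × Fin 3)) := by
  have : Fintype (PM (V × Fin 3)) := Fintype.ofFinite _
  set n := Nat.card (V × Fin 3) with hn
  set P := Nat.card (PM (V × Fin 3)) with hP
  set S : V × Fin 3 → Finset (V × Fin 3) := fun p => Finset.univ.filter fun q => q ≠ p ∧ q.1 = p.1
    with hS
  set T : Finset (V × Fin 3) := Finset.univ.filter fun a => a.1 ≠ p.1 with hT
  set c2 : V × Fin 3 → Finset (PM (V × Fin 3)) := fun q => Finset.univ.filter fun R => R.1 p = q
    with hc2
  set c4 : V × Fin 3 → V × Fin 3 → V × Fin 3 → Finset (PM (V × Fin 3)) :=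
    fun q a b => Finset.univ.filter fun R => R.1 p = a ∧ R.1 q = b with hc4
  have hsub : (Finset.univ.filter fun R : PM (V × Fin 3) => BadPt R p) ⊆
      (S p).biUnion c2 ∪ (S p).biUnion fun q => T.biUnion fun a => (S a).biUnion fun b => c4 q a b := by
    intro R hR
    rw [Finset.mem_filter] at hR
    rw [Finset.mem_union]
    by_cases h1 : (R.1 p).1 = p.1
    · left
      rw [Finset.mem_biUnion]
      refine ⟨R.1 p, ?_, ?_⟩
      · rw [hS, Finset.mem_filter]
        exact ⟨Finset.mem_univ _, br_ne R p, h1⟩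
      · rw [hc2, Finset.mem_filter]
        exact ⟨Finset.mem_univ _, rfl⟩
    · right
      rcases hR.2 with h2 | ⟨q, hq1, hq2, hq3⟩
      · exact absurd h2 h1
      rw [Finset.mem_biUnion]
      refine ⟨q, ?_, ?_⟩
      · rw [hS, Finset.mem_filter]
        exact ⟨Finset.mem_univ _, hq1, hq2⟩
      · rw [Finset.mem_biUnion]
        refine ⟨R.1 p, ?_, ?_⟩
        · rw [hT, Finset.mem_filter]
          exact ⟨Finset.mem_univ _, h1⟩
        · rw [Finset.mem_biUnion]
          refine ⟨R.1 q, ?_, ?_⟩
          · rw [hS, Finset.mem_filter]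
            exact ⟨Finset.mem_univ _, fun h => hq1 (R.1.injective h), hq3⟩
          · rw [hc4, Finset.mem_filter]
            exact ⟨Finset.mem_univ _, rfl, rfl⟩
  have h0 : Nat.card {R : PM (V × Fin 3) // BadPt R p} =
      (Finset.univ.filter fun R : PM (V × Fin 3) => BadPt R p).card := by
    rw [Nat.card_eq_fintype_card, Fintype.card_subtype]
  have hc2card : ∀ q ∈ S p, (n - 1) * (c2 q).card = P := by
    intro q hq
    rw [hS, Finset.mem_filter] at hq
    rw [hP, ← card_fix2 (V × Fin 3) p q (Ne.symm hq.2.1), Nat.card_eq_fintype_card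
      (α := {R : PM (V × Fin 3) // R.1 p = q}), Fintype.card_subtype]
  have hc4card : ∀ q ∈ S p, ∀ a ∈ T, ∀ b ∈ S a, (n - 1) * (n - 3) * (c4 q a b).card = P := by
    intro q hq a ha b hb
    rw [hS, Finset.mem_filter] at hq hb
    rw [hT, Finset.mem_filter] at ha
    have e1 : a.1 ≠ p.1 := ha.2
    have e2 : b.1 ≠ p.1 := by rw [hb.2.2]; exact ha.2
    have e3 : q.1 = p.1 := hq.2.2
    rw [hP, ← card_fix4 (V × Fin 3) p a q b (fun h => e1 (by rw [h])) (Ne.symm hq.2.1)
      (fun h => e2 (by rw [h])) (fun h => e1 (by rw [h, e3])) (Ne.symm hb.2.1)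
      (fun h => e2 (by rw [← h, e3])), Nat.card_eq_fintype_card
      (α := {R : PM (V × Fin 3) // R.1 p = a ∧ R.1 q = b}), Fintype.card_subtype]
  have hTc : T.card = n - 3 := b1_T p
  have hinner : ∀ q ∈ S p, (n - 1) * (∑ a ∈ T, ∑ b ∈ S a, (c4 q a b).card) ≤ 2 * P := by
    intro q hq
    rcases Nat.eq_zero_or_pos (n - 3) with h3 | h3
    · rw [h3, Finset.card_eq_zero] at hTc
      rw [hTc, Finset.sum_empty, mul_zero]
      exact Nat.zero_le _
    · apply Nat.le_of_mul_le_mul_left _ h3
      calc (n - 3) * ((n - 1) * (∑ a ∈ T, ∑ b ∈ S a, (c4 q a b).card))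
          = ∑ a ∈ T, ∑ b ∈ S a, (n - 1) * (n - 3) * (c4 q a b).card := by
            rw [← mul_assoc, mul_comm (n - 3) (n - 1), Finset.mul_sum]
            refine Finset.sum_congr rfl fun a _ => ?_
            rw [Finset.mul_sum]
        _ = ∑ a ∈ T, ∑ b ∈ S a, P :=
            Finset.sum_congr rfl fun a ha => Finset.sum_congr rfl fun b hb => hc4card q hq a ha b hb
        _ ≤ ∑ a ∈ T, 2 * P := by
            refine Finset.sum_le_sum fun a _ => ?_
            rw [Finset.sum_const, smul_eq_mul]
            exact Nat.mul_le_mul_right _ (b1_S a)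
        _ = (n - 3) * (2 * P) := by rw [Finset.sum_const, smul_eq_mul, hTc]
  rw [h0]
  calc (n - 1) * (Finset.univ.filter fun R : PM (V × Fin 3) => BadPt R p).card
      ≤ (n - 1) * (((S p).biUnion c2).card +
          ((S p).biUnion fun q => T.biUnion fun a => (S a).biUnion fun b => c4 q a b).card) :=
        Nat.mul_le_mul_left _ ((Finset.card_le_card hsub).trans (Finset.card_union_le _ _))
    _ ≤ (n - 1) * ((∑ q ∈ S p, (c2 q).card) +
          ∑ q ∈ S p, ∑ a ∈ T, ∑ b ∈ S a, (c4 q a b).card) := by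
        refine Nat.mul_le_mul_left _ (Nat.add_le_add Finset.card_biUnion_le ?_)
        refine Finset.card_biUnion_le.trans (Finset.sum_le_sum fun q _ => ?_)
        refine Finset.card_biUnion_le.trans (Finset.sum_le_sum fun a _ => ?_)
        exact Finset.card_biUnion_le
    _ = (∑ q ∈ S p, (n - 1) * (c2 q).card) +
          ∑ q ∈ S p, (n - 1) * ∑ a ∈ T, ∑ b ∈ S a, (c4 q a b).card := by
        rw [mul_add, Finset.mul_sum, Finset.mul_sum]
    _ ≤ (∑ q ∈ S p, P) + ∑ q ∈ S p, 2 * P := by
        refine Nat.add_le_add (Finset.sum_le_sum fun q hq => (hc2card q hq).le)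
          (Finset.sum_le_sum fun q hq => hinner q hq)
    _ = (S p).card * (3 * P) := by
        rw [Finset.sum_const, Finset.sum_const, smul_eq_mul, smul_eq_mul]
        ring
    _ ≤ 2 * (3 * P) := Nat.mul_le_mul_right _ (b1_S p)
    _ = 6 * P := by ring

/-- PROOF. n = 3 N = Nat.card (V × Fin 3), P = Nat.card (PM (V × Fin 3)). If V is empty the left side is 0; so n ≥ 3. A pair (R, p) with BadPt R p satisfies
(i) R p = q for some q ≠ p with q.1 = p.1 (loop; br_ne), or (ii) (R p).1 ≠ p.1 and there is q ≠ p, q.1 = p.1, such that a = R p, b = R q satisfy a ≠ b, a.1 = b.1 ≠ p.1.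
Number of (R, p, q) as in (i): n * 2 * A with (n - 1) A = P (card_fix2). Number of (R, p, q, a, b) as in (ii): at most
n * 2 * (n - 3) * 2 * B with (n - 1) (n - 3) B = P (card_fix4; p, a, q, b are pairwise different). So (n - 1) * (left side) ≤ 2 n P + 4 n P = 6 n P ≤ 9 (n - 1) P as n ≥ 3. For the
sums: the left side injects into the sigma type over (p, q) resp. (p, q, a, b) (Nat.card_sigma, Fintype sums of constants), or write it as
a sum over p (Nat.card = sum over p of Nat.card {R // BadPt R p}) and bound Nat.card {R // BadPt R p} ≤ 2 A + 2 (n - 3) 2 B by a union bound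
over the finite index sets {q // q ≠ p, q.1 = p.1} (2 elements) and {(q,a,b)}. -/
theorem br_exp {V : Type} [Fintype V] :
    Nat.card {q : PM (V × Fin 3) × (V × Fin 3) // BadPt q.1 q.2} ≤ 9 * Nat.card (PM (V × Fin 3)) := by
  rcases isEmpty_or_nonempty V with hV | hV
  · have : IsEmpty {q : PM (V × Fin 3) × (V × Fin 3) // BadPt q.1 q.2} :=
      ⟨fun q => hV.false q.1.2.1⟩
    rw [Nat.card_of_isEmpty]
    exact Nat.zero_le _
  · have hn : 3 ≤ Nat.card (V × Fin 3) := by
      rw [Nat.card_prod, Nat.card_eq_fintype_card, Nat.card_eq_fintype_card, Fintype.card_fin]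
      have := Fintype.card_pos (α := V)
      omega
    have e : Nat.card {q : PM (V × Fin 3) × (V × Fin 3) // BadPt q.1 q.2} =
        ∑ p : V × Fin 3, Nat.card {R : PM (V × Fin 3) // BadPt R p} := by
      rw [← Nat.card_sigma]
      refine Nat.card_congr ?_
      exact
        { toFun := fun q => ⟨q.1.2, ⟨q.1.1, q.2⟩⟩
          invFun := fun x => ⟨(x.2.1, x.1), x.2.2⟩
          left_inv := fun q => rfl
          right_inv := fun x => rfl }
    rw [e]
    have hn1 : 0 < Nat.card (V × Fin 3) - 1 := by omega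
    refine Nat.le_of_mul_le_mul_left ?_ hn1
    calc (Nat.card (V × Fin 3) - 1) * ∑ p : V × Fin 3, Nat.card {R : PM (V × Fin 3) // BadPt R p}
        = ∑ p : V × Fin 3, (Nat.card (V × Fin 3) - 1) * Nat.card {R : PM (V × Fin 3) // BadPt R p} := by
          rw [Finset.mul_sum]
      _ ≤ ∑ _p : V × Fin 3, 6 * Nat.card (PM (V × Fin 3)) :=
          Finset.sum_le_sum fun p _ => b1_point p
      _ = Nat.card (V × Fin 3) * (6 * Nat.card (PM (V × Fin 3))) := by
          rw [Finset.sum_const, Finset.card_univ, smul_eq_mul, Nat.card_eq_fintype_card (α := V × Fin 3)]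
      _ ≤ (Nat.card (V × Fin 3) - 1) * (9 * Nat.card (PM (V × Fin 3))) := by
          obtain ⟨k, hk⟩ : ∃ k, Nat.card (V × Fin 3) = k + 3 := ⟨Nat.card (V × Fin 3) - 3, by omega⟩
          rw [hk]
          have : k + 3 - 1 = k + 2 := by omega
          rw [this]
          nlinarith [Nat.zero_le (Nat.card (PM (V × Fin 3))), Nat.zero_le (k * Nat.card (PM (V × Fin 3)))]

end Pool.Agent.H38H
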