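import Mathlib
import Pool.Agent.Lib.H38H.BR.Defs

/-!
H38H, chunk BR10 (M): the key inequality for disconnected pairings. Pure arithmetic.
-/

set_option autoImplicit false

namespace Pool.Agent.H38H

open Classical

theorem b10_pm (m : ℕ) : pm (2 * m) * (2 ^ m * m.factorial) = (2 * m).factorial := by
  unfold pm
  rw [if_pos (even_two_mul m)]
  rcases Nat.eq_zero_or_pos m with rfl | hm
  · simp
  · obtain ⟨k, hk⟩ : ∃ k, 2 * m = k + 1 := ⟨2 * m - 1, by omega⟩
    rw [hk, Nat.factorial_eq_mul_doubleFactorial, ← hk, Nat.doubleFactorial_two_mul]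
    have : 2 * m - 1 = k := by omega
    rw [this, mul_comm]

theorem b10_vander (a b c d : ℕ) : a.choose c * b.choose d ≤ (a + b).choose (c + d) := by
  rw [Nat.add_choose_eq]
  exact Finset.single_le_sum (f := fun ij : ℕ × ℕ => a.choose ij.1 * b.choose ij.2)
    (fun _ _ => Nat.zero_le _) (Finset.HasAntidiagonal.mem_antidiagonal.2 rfl : (c, d) ∈ Finset.HasAntidiagonal.antidiagonal (c + d))

theorem b10_fac (a b : ℕ) : (a + b).choose a * a.factorial * b.factorial = (a + b).factorial := by
  have := Nat.choose_mul_factorial_mul_factorial (Nat.le_add_right a b)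
  rwa [Nat.add_sub_cancel_left] at this

theorem b10_key (a b : ℕ) :
    (2 * (a + b)).choose (2 * a) * (pm (2 * a) * pm (2 * b)) = pm (2 * (a + b)) * (a + b).choose a := by
  have h1 := b10_pm a
  have h2 := b10_pm b
  have h3 := b10_pm (a + b)
  have h4 : (2 * (a + b)).choose (2 * a) * (2 * a).factorial * (2 * b).factorial =
      (2 * (a + b)).factorial := by
    have := b10_fac (2 * a) (2 * b)
    have e : 2 * (a + b) = 2 * a + 2 * b := by ring
    rw [e]
    exact this
  have h5 : (a + b).choose a * a.factorial * b.factorial = (a + b).factorial :=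
    b10_fac a b
  have hpos : 0 < 2 ^ (a + b) * (a.factorial * b.factorial) := by positivity
  apply Nat.eq_of_mul_eq_mul_right hpos
  calc (2 * (a + b)).choose (2 * a) * (pm (2 * a) * pm (2 * b)) *
        (2 ^ (a + b) * (a.factorial * b.factorial))
      = (2 * (a + b)).choose (2 * a) * (pm (2 * a) * (2 ^ a * a.factorial)) *
          (pm (2 * b) * (2 ^ b * b.factorial)) := by rw [pow_add]; ring
    _ = (2 * (a + b)).factorial := by rw [h1, h2, h4]
    _ = pm (2 * (a + b)) * (2 ^ (a + b) * ((a + b).choose a * a.factorial * b.factorial)) := by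
          rw [h5, h3]
    _ = _ := by ring

/-- PROOF. pm (2 m) = (2 m - 1)!! and pm (2 m) 2^m m! = (2 m)! (Nat.factorial_eq_mul_doubleFactorial, Nat.doubleFactorial_two_mul; m = 0 separately). With k = M - i: pm (6 i) pm (6 k) choose (6 M) (6 i) =
pm (6 M) choose (3 M) (3 i): both sides times 2^(3M) (3 i)! (3 k)! are (6 M)! (Nat.choose_mul_factorial_mul_factorial / Nat.add_choose_mul_factorial_mul_factorial). Vandermonde (Nat.add_choose_eq, one term of a sum over the
antidiagonal): choose (6 M) (6 i) ≥ choose (2 M) (2 i) * choose (4 M) (4 i) ≥ choose (2 M) (2 i) * choose (3 M) (3 i) * choose M i. So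
choose (3 M) (3 i) * (left side) ≤ choose (3 M) (3 i) * (right side), and choose (3 M) (3 i) > 0. -/
theorem br_choose (M i : ℕ) (h : i ≤ M) :
    (2 * M).choose (2 * i) * (pm (3 * (2 * i)) * pm (3 * (2 * M - 2 * i))) * M.choose i ≤ pm (3 * (2 * M)) := by
  obtain ⟨k, rfl⟩ : ∃ k, M = i + k := ⟨M - i, by omega⟩
  have e1 : 3 * (2 * i) = 2 * (3 * i) := by ring
  have e2 : 3 * (2 * (i + k) - 2 * i) = 2 * (3 * k) := by omega
  have e3 : 3 * (2 * (i + k)) = 2 * (3 * i + 3 * k) := by ring
  rw [e1, e2, e3]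
  have hk := b10_key (3 * i) (3 * k)
  have hpos : 0 < (3 * i + 3 * k).choose (3 * i) := Nat.choose_pos (by omega)
  have v1 : (2 * (i + k)).choose (2 * i) * (4 * (i + k)).choose (4 * i) ≤
      (2 * (3 * i + 3 * k)).choose (2 * (3 * i)) := by
    have := b10_vander (2 * (i + k)) (4 * (i + k)) (2 * i) (4 * i)
    have e4 : 2 * (i + k) + 4 * (i + k) = 2 * (3 * i + 3 * k) := by ring
    have e5 : 2 * i + 4 * i = 2 * (3 * i) := by ring
    rwa [e4, e5] at this
  have v2 : (i + k).choose i * (3 * i + 3 * k).choose (3 * i) ≤ (4 * (i + k)).choose (4 * i) := by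
    have := b10_vander (i + k) (3 * i + 3 * k) i (3 * i)
    have e4 : i + k + (3 * i + 3 * k) = 4 * (i + k) := by ring
    have e5 : i + 3 * i = 4 * i := by ring
    rwa [e4, e5] at this
  apply Nat.le_of_mul_le_mul_right _ hpos
  calc (2 * (i + k)).choose (2 * i) * (pm (2 * (3 * i)) * pm (2 * (3 * k))) * (i + k).choose i *
        (3 * i + 3 * k).choose (3 * i)
      = (2 * (i + k)).choose (2 * i) * ((i + k).choose i * (3 * i + 3 * k).choose (3 * i)) *
          (pm (2 * (3 * i)) * pm (2 * (3 * k))) := by ring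
    _ ≤ (2 * (i + k)).choose (2 * i) * (4 * (i + k)).choose (4 * i) *
          (pm (2 * (3 * i)) * pm (2 * (3 * k))) := by gcongr
    _ ≤ (2 * (3 * i + 3 * k)).choose (2 * (3 * i)) *
          (pm (2 * (3 * i)) * pm (2 * (3 * k))) := by gcongr
    _ = _ := hk

end Pool.Agent.H38H
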