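import Mathlib
import Pool.Agent.Lib.H38H.BR.Defs

/-!
H38H, chunk BR11 (S/M): sum of the inverses of the binomial coefficients. Pure arithmetic.
-/

set_option autoImplicit false

namespace Pool.Agent.H38H

open Classical

private theorem br11_mono (n i : ℕ) (h2 : 2 ≤ i) (hi : i ≤ n / 2) : n.choose 2 ≤ n.choose i := by
  induction i, h2 using Nat.le_induction with
  | base => exact le_rfl
  | succ k hk ih => exact (ih (by omega)).trans (Nat.choose_le_succ_of_lt_half_left (by omega))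

private theorem br11_choose (n i : ℕ) (h2 : 2 ≤ i) (hi : i + 2 ≤ n) : n.choose 2 ≤ n.choose i := by
  by_cases h : i ≤ n / 2
  · exact br11_mono n i h2 h
  · rw [← Nat.choose_symm (by omega : i ≤ n)]
    exact br11_mono n (n - i) (by omega) (by omega)

/-- PROOF. M ≤ 3 directly. M ≥ 4: the terms i = 1 and i = M - 1 are 1/M; for 2 ≤ i ≤ M - 2 one has choose M i ≥ choose M 2 = M (M-1)/2 (Nat.choose_le_choose monotonicity up to the middle: for i ≤ M/2 Nat.choose_le_middle-type
lemmas, e.g. Nat.choose_le_succ_of_lt_half_left by induction; symmetric for i > M/2, Nat.choose_symm), so the sum is at most 2/M + (M - 3) * 2/(M (M-1)) ≤ 4/M. -/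
theorem br_inv_choose (M : ℕ) (hM : 1 ≤ M) :
    ∑ i ∈ Finset.Ico 1 M, (1 : ℝ) / (M.choose i : ℝ) ≤ 4 / M := by
  rcases Nat.lt_or_ge M 4 with h4 | h4
  · have hcases : M = 1 ∨ M = 2 ∨ M = 3 := by omega
    rcases hcases with rfl | rfl | rfl
    · simp
    · rw [Finset.sum_Ico_succ_top (by norm_num)]
      norm_num
    · rw [Finset.sum_Ico_succ_top (by norm_num), Finset.sum_Ico_succ_top (by norm_num)]
      norm_num [Nat.choose]
  · obtain ⟨m, rfl⟩ : ∃ m, M = m + 4 := ⟨M - 4, by omega⟩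
    have hm : (0 : ℝ) ≤ (m : ℝ) := Nat.cast_nonneg m
    rw [Finset.sum_Ico_succ_top (by omega : 1 ≤ m + 3), Finset.sum_eq_sum_Ico_succ_bot (by omega : 1 < m + 3)]
    have e1 : ((m + 4).choose 1 : ℝ) = (m : ℝ) + 4 := by
      rw [Nat.choose_one_right]; push_cast; ring
    have e2 : ((m + 4).choose (m + 3) : ℝ) = (m : ℝ) + 4 := by
      have : (m + 4).choose (m + 3) = m + 4 := by
        rw [show m + 4 = (m + 3) + 1 by ring, Nat.choose_succ_self_right]
      rw [this]; push_cast; ring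
    have e3 : ∑ i ∈ Finset.Ico (1 + 1) (m + 3), (1 : ℝ) / ((m + 4).choose i : ℝ) ≤
        (m + 1 : ℝ) * (2 / (((m : ℝ) + 4) * ((m : ℝ) + 3))) := by
      have hc : ((Finset.Ico (1 + 1) (m + 3)).card : ℝ) = (m + 1 : ℝ) := by
        rw [Nat.card_Ico]
        have : m + 3 - (1 + 1) = m + 1 := by omega
        rw [this]; push_cast; ring
      rw [← hc, ← nsmul_eq_mul]
      apply Finset.sum_le_card_nsmul
      intro i hi
      rw [Finset.mem_Ico] at hi
      have h1 := br11_choose (m + 4) i (by omega) (by omega)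
      have h2 : (((m + 4).choose 2 : ℕ) : ℝ) = ((m : ℝ) + 4) * ((m : ℝ) + 3) / 2 := by
        rw [Nat.cast_choose_two]
        push_cast
        ring
      have h3 : ((m : ℝ) + 4) * ((m : ℝ) + 3) / 2 ≤ ((m + 4).choose i : ℝ) := by
        rw [← h2]
        exact_mod_cast h1
      have h4' : (0 : ℝ) < ((m : ℝ) + 4) * ((m : ℝ) + 3) / 2 := by positivity
      calc (1 : ℝ) / ((m + 4).choose i : ℝ) ≤ 1 / (((m : ℝ) + 4) * ((m : ℝ) + 3) / 2) :=
            one_div_le_one_div_of_le h4' h3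
        _ = 2 / (((m : ℝ) + 4) * ((m : ℝ) + 3)) := by
            rw [one_div_div]
    rw [e1, e2]
    push_cast
    have h5 : (m + 1 : ℝ) * (2 / (((m : ℝ) + 4) * ((m : ℝ) + 3))) ≤ 2 / ((m : ℝ) + 4) := by
      rw [mul_div_assoc', div_le_div_iff₀ (by positivity) (by positivity)]
      nlinarith
    have h6 : (4 : ℝ) / ((m : ℝ) + 4) = 1 / ((m : ℝ) + 4) + (2 / ((m : ℝ) + 4)) + 1 / ((m : ℝ) + 4) := by
      field_simp
      norm_num
    rw [h6]
    linarith

end Pool.Agent.H38H
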