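import Mathlib
import Pool.Agent.Lib.H38H.BR.Defs

/-!
H38H, chunk BR8 (M): pairings with a given closed set of vertices. Uses PR7 card_PM'.
-/

set_option autoImplicit false

namespace Pool.Agent.H38H

open Classical

theorem br8_iff {α : Type} {P : α → Prop} {R : PM α} (h : ∀ x, P x → P (R.1 x)) (x : α) :
    P (R.1 x) ↔ P x := by
  refine ⟨fun h1 => ?_, h x⟩
  have h2 := h _ h1
  rwa [R.2.1] at h2

/-- restriction to both parts -/
def br8_fwd {α : Type} (P : α → Prop) (R : {R : PM α // ∀ x, P x → P (R.1 x)}) :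
    PM {x // P x} × PM {x // ¬ P x} :=
  (⟨R.1.1.subtypePerm (br8_iff R.2), by
      refine ⟨fun x => Subtype.ext ?_, fun x h => ?_⟩
      · exact R.1.2.1 x.1
      · exact R.1.2.2 x.1 (congrArg Subtype.val h)⟩,
    ⟨R.1.1.subtypePerm (fun x => not_congr (br8_iff R.2 x)), by
      refine ⟨fun x => Subtype.ext ?_, fun x h => ?_⟩
      · exact R.1.2.1 x.1
      · exact R.1.2.2 x.1 (congrArg Subtype.val h)⟩)

/-- gluing -/
noncomputable def br8_bwd {α : Type} (P : α → Prop) (p : PM {x // P x} × PM {x // ¬ P x}) :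
    {R : PM α // ∀ x, P x → P (R.1 x)} :=
  ⟨⟨Equiv.Perm.subtypeCongr p.1.1 p.2.1, by
      have hl : ∀ (x : α) (h : P x), Equiv.Perm.subtypeCongr p.1.1 p.2.1 x = (p.1.1 ⟨x, h⟩).1 :=
        fun x h => Equiv.Perm.subtypeCongr.left_apply _ _ h
      have hr : ∀ (x : α) (h : ¬ P x), Equiv.Perm.subtypeCongr p.1.1 p.2.1 x = (p.2.1 ⟨x, h⟩).1 :=
        fun x h => Equiv.Perm.subtypeCongr.right_apply _ _ h
      refine ⟨fun x => ?_, fun x => ?_⟩
      · by_cases h : P x
        · rw [hl x h, hl _ (p.1.1 ⟨x, h⟩).2]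
          exact congrArg Subtype.val (p.1.2.1 ⟨x, h⟩)
        · rw [hr x h, hr _ (p.2.1 ⟨x, h⟩).2]
          exact congrArg Subtype.val (p.2.2.1 ⟨x, h⟩)
      · by_cases h : P x
        · rw [hl x h]
          intro h1
          exact p.1.2.2 ⟨x, h⟩ (Subtype.ext h1)
        · rw [hr x h]
          intro h1
          exact p.2.2.2 ⟨x, h⟩ (Subtype.ext h1)⟩, by
    intro x h
    show P (Equiv.Perm.subtypeCongr p.1.1 p.2.1 x)
    rw [Equiv.Perm.subtypeCongr.left_apply _ _ h]
    exact (p.1.1 ⟨x, h⟩).2⟩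

/-- the bijection -/
noncomputable def br8_equiv {α : Type} (P : α → Prop) :
    {R : PM α // ∀ x, P x → P (R.1 x)} ≃ PM {x // P x} × PM {x // ¬ P x} where
  toFun := br8_fwd P
  invFun := br8_bwd P
  left_inv R := by
    apply Subtype.ext
    apply Subtype.ext
    apply Equiv.ext
    intro x
    show Equiv.Perm.subtypeCongr (br8_fwd P R).1.1 (br8_fwd P R).2.1 x = R.1.1 x
    by_cases h : P x
    · rw [Equiv.Perm.subtypeCongr.left_apply _ _ h]
      rfl
    · rw [Equiv.Perm.subtypeCongr.right_apply _ _ h]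
      rfl
  right_inv p := by
    apply Prod.ext
    · apply Subtype.ext
      apply Equiv.ext
      intro x
      apply Subtype.ext
      exact Equiv.Perm.subtypeCongr.left_apply _ _ x.2
    · apply Subtype.ext
      apply Equiv.ext
      intro x
      apply Subtype.ext
      exact Equiv.Perm.subtypeCongr.right_apply _ _ x.2

/-- PROOF. Let S = {p // p.1 ∈ T}, S' = {p // p.1 ∉ T}. A pairing R with BrClosed R T maps S to S, and S' to S' (R is an involution). So R ↦ (R|S, R|S') is a bijection onto PM S × PM S'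
(Equiv.Perm.subtypePerm, or build the functions by hand; inverse: Equiv.Perm.subtypeCongr / Equiv.sumCompl, or r ↦ if r.1 ∈ T then ... else ...). Nat.card_prod, card_PM', Nat.card S = 3 T.card, Nat.card S' = 3 (card V - T.card)
(S ≃ T × Fin 3 etc.). -/
theorem br_closed {V : Type} [Fintype V] (T : Finset V) :
    Nat.card {R : PM (V × Fin 3) // BrClosed R T} = pm (3 * T.card) * pm (3 * (Fintype.card V - T.card)) := by
  have e1 : Nat.card {R : PM (V × Fin 3) // BrClosed R T} =
      Nat.card (PM {p : V × Fin 3 // p.1 ∈ T} × PM {p : V × Fin 3 // ¬ p.1 ∈ T}) :=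
    Nat.card_congr (br8_equiv (fun p : V × Fin 3 => p.1 ∈ T))
  have e2 : Nat.card {p : V × Fin 3 // p.1 ∈ T} = 3 * T.card := by
    rw [Nat.card_congr (Equiv.prodSubtypeFstEquivSubtypeProd (p := fun v : V => v ∈ T)),
      Nat.card_prod, Nat.card_eq_fintype_card, Fintype.card_coe, Nat.card_eq_fintype_card,
      Fintype.card_fin, mul_comm]
  have e3 : Nat.card {p : V × Fin 3 // ¬ p.1 ∈ T} = 3 * (Fintype.card V - T.card) := by
    rw [Nat.card_congr (Equiv.prodSubtypeFstEquivSubtypeProd (p := fun v : V => ¬ v ∈ T)),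
      Nat.card_prod, Nat.card_eq_fintype_card (α := {v : V // ¬ v ∈ T}),
      Nat.card_eq_fintype_card (α := Fin 3), Fintype.card_fin, mul_comm, Fintype.card_subtype_compl,
      Fintype.card_coe]
  rw [e1, Nat.card_prod, card_PM', card_PM', e2, e3]

end Pool.Agent.H38H
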