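import Mathlib
import Pool.Agent.Lib.H38H.BR.B8

/-!
H38H, chunk BR9 (S/M): disconnected pairings.
-/

set_option autoImplicit false

namespace Pool.Agent.H38H

open Classical

theorem br9_card {α : Type} [Fintype α] (P : α → Prop) [DecidablePred P] :
    Nat.card {x // P x} = (Finset.univ.filter P).card := by
  rw [Nat.card_eq_fintype_card, Fintype.card_subtype]

/-- PROOF. G.Connected iff Preconnected and Nonempty; so there are u, v not reachable from each other. T = {w : G.Reachable u w} (Finset.univ.filter). u ∈ T, v ∉ T; closed: G.Adj p.1 (R p).1 by Over. -/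
theorem br_disc_of {V : Type} [Fintype V] [Nonempty V] {G : SimpleGraph V} {R : PM (V × Fin 3)} (h : Over G R)
    (hc : ¬ G.Connected) : BrDisc R := by
  have h1 : ¬ G.Preconnected := fun h2 => hc ⟨h2⟩
  unfold SimpleGraph.Preconnected at h1
  push Not at h1
  obtain ⟨u, v, huv⟩ := h1
  refine ⟨Finset.univ.filter (fun w => G.Reachable u w), ⟨u, ?_⟩, ?_, ?_⟩
  · exact Finset.mem_filter.2 ⟨Finset.mem_univ _, SimpleGraph.Reachable.refl u⟩
  · intro h2
    have h3 : v ∈ Finset.univ.filter (fun w => G.Reachable u w) := by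
      rw [h2]
      exact Finset.mem_univ _
    exact huv (Finset.mem_filter.1 h3).2
  · intro p hp
    have h3 := (Finset.mem_filter.1 hp).2
    exact Finset.mem_filter.2 ⟨Finset.mem_univ _, h3.trans (h.1 p).reachable⟩

/-- PROOF. Union bound over the sets T, nonempty and not everything, i.e. 1 ≤ T.card ≤ N - 1, br_closed; the number of T with T.card = j is N.choose j (Finset.card_powersetCard; group the sum over T by the
cardinality: Finset.sum_powerset_apply_card or sum over Finset.powersetCard). -/
theorem br_disc_card (N : ℕ) :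
    Nat.card {R : PM (Fin N × Fin 3) // BrDisc R} ≤
      ∑ j ∈ Finset.Ico 1 N, N.choose j * (pm (3 * j) * pm (3 * (N - j))) := by
  have hfin : Fintype (PM (Fin N × Fin 3)) := Fintype.ofFinite _
  have h1 : Nat.card {R : PM (Fin N × Fin 3) // BrDisc R} ≤
      ∑ T ∈ (Finset.univ : Finset (Finset (Fin N))).filter (fun T => 1 ≤ T.card ∧ T.card < N),
        Nat.card {R : PM (Fin N × Fin 3) // BrClosed R T} := by
    rw [br9_card]
    have hsub : (Finset.univ.filter (fun R : PM (Fin N × Fin 3) => BrDisc R)) ⊆
        ((Finset.univ : Finset (Finset (Fin N))).filter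
          (fun T => 1 ≤ T.card ∧ T.card < N)).biUnion fun T =>
          Finset.univ.filter (fun R : PM (Fin N × Fin 3) => BrClosed R T) := by
      intro R hR
      obtain ⟨T, hT1, hT2, hT3⟩ := (Finset.mem_filter.1 hR).2
      rw [Finset.mem_biUnion]
      refine ⟨T, Finset.mem_filter.2 ⟨Finset.mem_univ _, Finset.card_pos.2 hT1, ?_⟩,
        Finset.mem_filter.2 ⟨Finset.mem_univ _, hT3⟩⟩
      have h2 := (Finset.card_lt_iff_ne_univ T).2 hT2
      rwa [Fintype.card_fin] at h2
    refine (Finset.card_le_card hsub).trans ?_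
    refine Finset.card_biUnion_le.trans ?_
    refine Finset.sum_le_sum fun T _ => ?_
    rw [br9_card]
  refine h1.trans (le_of_eq ?_)
  have h2 : ∀ T ∈ (Finset.univ : Finset (Finset (Fin N))).filter
      (fun T => 1 ≤ T.card ∧ T.card < N), Nat.card {R : PM (Fin N × Fin 3) // BrClosed R T} =
      pm (3 * T.card) * pm (3 * (N - T.card)) := by
    intro T _
    rw [br_closed, Fintype.card_fin]
  rw [Finset.sum_congr rfl h2, Finset.sum_filter]
  have h3 := Finset.sum_powerset_apply_card
    (fun m => if 1 ≤ m ∧ m < N then pm (3 * m) * pm (3 * (N - m)) else 0)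
    (x := (Finset.univ : Finset (Fin N)))
  rw [Finset.powerset_univ, Finset.card_univ, Fintype.card_fin] at h3
  rw [h3]
  symm
  refine Finset.sum_subset_zero_on_sdiff ?_ ?_ ?_
  · intro m hm
    rw [Finset.mem_Ico] at hm
    rw [Finset.mem_range]
    omega
  · intro m hm
    rw [Finset.mem_sdiff, Finset.mem_Ico] at hm
    rw [if_neg hm.2, smul_zero]
  · intro m hm
    rw [Finset.mem_Ico] at hm
    rw [if_pos hm, smul_eq_mul]

end Pool.Agent.H38H
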