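import Mathlib
import Pool.Agent.Lib.H38H.BR.B9
import Pool.Agent.Lib.H38H.BR.B10
import Pool.Agent.Lib.H38H.BR.B11

/-!
H38H, chunk BR12 (S/M): few pairings are disconnected.
-/

set_option autoImplicit false

namespace Pool.Agent.H38H

open Classical

/-- PROOF. br_disc_card with N = 2 M. The terms with odd j vanish (pm (3 j) = 0). The term j = 2 i, 1 ≤ i ≤ M - 1, is at most pm (6 M) / choose M i by br_choose. br_inv_choose. -/
theorem br_disc_le (M : ℕ) (hM : 1 ≤ M) :
    (Nat.card {R : PM (Fin (2 * M) × Fin 3) // BrDisc R} : ℝ) ≤ 4 / M * (pm (3 * (2 * M)) : ℝ) := by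
  have h0 := br_disc_card (2 * M)
  have h1 : ∑ j ∈ Finset.Ico 1 (2 * M), (2 * M).choose j * (pm (3 * j) * pm (3 * (2 * M - j))) =
      ∑ i ∈ Finset.Ico 1 M, (2 * M).choose (2 * i) * (pm (3 * (2 * i)) * pm (3 * (2 * M - 2 * i))) := by
    symm
    rw [← Finset.sum_image (s := Finset.Ico 1 M) (g := fun i => 2 * i)
      (f := fun j => (2 * M).choose j * (pm (3 * j) * pm (3 * (2 * M - j))))]
    · apply Finset.sum_subset
      · intro j hj
        rw [Finset.mem_image] at hj
        obtain ⟨i, hi, rfl⟩ := hj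
        rw [Finset.mem_Ico] at hi ⊢
        omega
      · intro j hj hj'
        rw [Finset.mem_Ico] at hj
        have hodd : ¬ Even j := by
          rintro ⟨i, hi⟩
          apply hj'
          rw [Finset.mem_image]
          exact ⟨i, by rw [Finset.mem_Ico]; omega, by omega⟩
        have h2 : pm (3 * j) = 0 := by
          unfold pm
          rw [if_neg]
          intro h
          rw [Nat.even_mul] at h
          rcases h with h | h
          · exact absurd h (by decide)
          · exact hodd h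
        rw [h2]
        simp
    · intro a _ b _ hab
      simpa using hab
  rw [h1] at h0
  have h2 : (Nat.card {R : PM (Fin (2 * M) × Fin 3) // BrDisc R} : ℝ) ≤
      ∑ i ∈ Finset.Ico 1 M, (((2 * M).choose (2 * i) *
        (pm (3 * (2 * i)) * pm (3 * (2 * M - 2 * i))) : ℕ) : ℝ) := by
    exact_mod_cast h0
  have h3 : ∀ i ∈ Finset.Ico 1 M, (((2 * M).choose (2 * i) *
        (pm (3 * (2 * i)) * pm (3 * (2 * M - 2 * i))) : ℕ) : ℝ) ≤
        (1 : ℝ) / (M.choose i : ℝ) * (pm (3 * (2 * M)) : ℝ) := by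
    intro i hi
    rw [Finset.mem_Ico] at hi
    have h4 := br_choose M i (by omega)
    have h5 : 0 < M.choose i := Nat.choose_pos (by omega)
    have h6 : (0 : ℝ) < (M.choose i : ℝ) := by exact_mod_cast h5
    rw [div_mul_eq_mul_div, one_mul, le_div_iff₀ h6]
    exact_mod_cast h4
  calc (Nat.card {R : PM (Fin (2 * M) × Fin 3) // BrDisc R} : ℝ) ≤ _ := h2
    _ ≤ ∑ i ∈ Finset.Ico 1 M, (1 : ℝ) / (M.choose i : ℝ) * (pm (3 * (2 * M)) : ℝ) :=
        Finset.sum_le_sum h3
    _ = (∑ i ∈ Finset.Ico 1 M, (1 : ℝ) / (M.choose i : ℝ)) * (pm (3 * (2 * M)) : ℝ) := by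
        rw [Finset.sum_mul]
    _ ≤ _ := mul_le_mul_of_nonneg_right (br_inv_choose M hM) (Nat.cast_nonneg _)

end Pool.Agent.H38H
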