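import Mathlib
import Pool.Agent.Lib.H38H.BR.B1

/-!
H38H, chunk BR2 (S/M): Markov inequality for the number of bad points.
-/

set_option autoImplicit false

namespace Pool.Agent.H38H

open Classical

/-- PROOF. P = Nat.card (PM _), S = number of R with badN R ≥ 19. The number in br_exp is the sum over R of badN R (Nat.card_sigma after the equivalence of the
subtype of the product with the sigma type; everything is finite), so 19 S ≤ 9 P. The number in question is P - S, and 2 * 19 * (P - S) ≥ 38 P - 18 P = 20 P ≥ 19 P. -/
theorem br_markov {V : Type} [Fintype V] :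
    Nat.card (PM (V × Fin 3)) ≤ 2 * Nat.card {R : PM (V × Fin 3) // badN R ≤ 18} := by
  have : Fintype (PM (V × Fin 3)) := Fintype.ofFinite _
  have h := br_exp (V := V)
  have e : Nat.card {q : PM (V × Fin 3) × (V × Fin 3) // BadPt q.1 q.2} =
      ∑ R : PM (V × Fin 3), badN R := by
    unfold badN
    rw [← Nat.card_sigma]
    refine Nat.card_congr ?_
    exact
      { toFun := fun q => ⟨q.1.1, ⟨q.1.2, q.2⟩⟩
        invFun := fun x => ⟨(x.1, x.2.1), x.2.2⟩
        left_inv := fun q => rfl
        right_inv := fun x => rfl }
  rw [e] at h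
  have h1 : (Finset.univ.filter fun R : PM (V × Fin 3) => ¬ badN R ≤ 18).card * 19 ≤
      ∑ R : PM (V × Fin 3), badN R := by
    calc (Finset.univ.filter fun R : PM (V × Fin 3) => ¬ badN R ≤ 18).card * 19
        = ∑ _R ∈ Finset.univ.filter fun R : PM (V × Fin 3) => ¬ badN R ≤ 18, 19 := by
          rw [Finset.sum_const, smul_eq_mul]
      _ ≤ ∑ R ∈ Finset.univ.filter fun R : PM (V × Fin 3) => ¬ badN R ≤ 18, badN R := by
          refine Finset.sum_le_sum fun R hR => ?_
          rw [Finset.mem_filter] at hR
          omega
      _ ≤ ∑ R : PM (V × Fin 3), badN R :=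
          Finset.sum_le_sum_of_subset (Finset.filter_subset _ _)
  have h2 := Finset.card_filter_add_card_filter_not (s := (Finset.univ : Finset (PM (V × Fin 3))))
    (fun R => badN R ≤ 18)
  rw [Finset.card_univ] at h2
  rw [Nat.card_eq_fintype_card] at h
  rw [Nat.card_eq_fintype_card, Nat.card_eq_fintype_card, Fintype.card_subtype]
  omega

end Pool.Agent.H38H
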