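import Mathlib
import Pool.Agent.Lib.H38H.BR.Defs

/-!
H38H, chunk BR3 (S/M): the values of the switched pairing.
-/

set_option autoImplicit false

namespace Pool.Agent.H38H

open Classical

/-- PROOF. brSw R p p' = conjugation of R by the transposition of q = R p and p' (brConj_apply). p, p', q = R p, q' = R p' are pairwise different: p.1, p'.1, q.1 ... by Far (p ≠ p' and
p' ≠ q as the vertices differ, hence q ≠ q' and p ≠ q' by applying R; br_ne, br_inv). Equiv.swap_apply_of_ne_of_ne, swap_apply_left, swap_apply_right. For the last one: R r is neither q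
nor p' because r ≠ p and r ≠ q'. -/
theorem br_sw_apply {V : Type} [DecidableEq V] (R : PM (V × Fin 3)) (p p' : V × Fin 3) (h : Far R p p') :
    (brSw R p p').1 p = p' ∧ (brSw R p p').1 p' = p ∧ (brSw R p p').1 (R.1 p) = R.1 p' ∧
    (brSw R p p').1 (R.1 p') = R.1 p ∧
    ∀ r, r ≠ p → r ≠ p' → r ≠ R.1 p → r ≠ R.1 p' → (brSw R p p').1 r = R.1 r := by
  have hpp : p ≠ p' := fun e => h.1 (by rw [e])
  have hpq : p ≠ R.1 p := fun e => br_ne R p e.symm
  have hp'q : p' ≠ R.1 p := fun e => h.2.1 (by rw [← e])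
  have hp'q' : p' ≠ R.1 p' := fun e => br_ne R p' e.symm
  have hqq' : R.1 p ≠ R.1 p' := fun e => hpp (R.1.injective e)
  have hpq' : p ≠ R.1 p' := by
    intro e
    apply hp'q
    rw [e, br_inv]
  have key : ∀ x, (brSw R p p').1 x
      = Equiv.swap (R.1 p) p' (R.1 (Equiv.swap (R.1 p) p' x)) := fun x => rfl
  refine ⟨?_, ?_, ?_, ?_, ?_⟩
  · rw [key, Equiv.swap_apply_of_ne_of_ne hpq hpp, Equiv.swap_apply_left]
  · rw [key, Equiv.swap_apply_right, br_inv, Equiv.swap_apply_of_ne_of_ne hpq hpp]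
  · rw [key, Equiv.swap_apply_left, Equiv.swap_apply_of_ne_of_ne hqq'.symm hp'q'.symm]
  · rw [key, Equiv.swap_apply_of_ne_of_ne hqq'.symm hp'q'.symm, br_inv, Equiv.swap_apply_right]
  · intro r h1 h2 h3 h4
    rw [key, Equiv.swap_apply_of_ne_of_ne h3 h2]
    apply Equiv.swap_apply_of_ne_of_ne
    · intro e
      exact h1 (R.1.injective e)
    · intro e
      apply h4
      rw [← e, br_inv]

end Pool.Agent.H38H
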