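import Mathlib
import Pool.Agent.Lib.H38H.BR.B3

/-!
H38H, chunk BR4 (M): switching at a bad point and a far point makes the set of bad points strictly smaller.
-/

set_option autoImplicit false

namespace Pool.Agent.H38H

open Classical

theorem br4_aux {V : Type} (R R' : PM (V × Fin 3)) (a b c d : V × Fin 3) (ha : R'.1 a = b)
    (hc : R'.1 c = d) (hab : b.1 ≠ a.1) (had : d.1 ≠ a.1) (hcc : c.1 ≠ a.1 ∨ d.1 ≠ b.1)
    (hoth : ∀ r, r ≠ a → r ≠ b → r ≠ c → r ≠ d → R'.1 r = R.1 r)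
    (h6 : ∀ r, r.1 = a.1 → (R.1 r).1 ≠ b.1) :
    ∀ t, t ≠ a → t.1 = a.1 → (R'.1 t).1 ≠ (R'.1 a).1 := by
  intro t ht h1 h2
  rw [ha] at h2
  by_cases hb : t = b
  · rw [hb] at h1
    exact hab h1
  by_cases hd : t = d
  · rw [hd] at h1
    exact had h1
  by_cases htc : t = c
  · rw [htc] at h1 h2
    rw [hc] at h2
    exact hcc.elim (fun h => h h1) (fun h => h h2)
  rw [hoth t ht hb htc hd] at h2
  exact h6 t h1 h2

/-- PROOF. R' = brSw R p p', q = R p, q' = R p' (br_sw_apply). Write (1)-(7) for the seven parts of Far R p p': (1) p'.1 ≠ p.1 (2) p'.1 ≠ q.1 (3) q'.1 ≠ p.1 (4) q'.1 ≠ q.1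
(5) q'.1 ≠ p'.1 (6) no r at the vertex p.1 has (R r).1 = p'.1; hence also no r at p'.1 has (R r).1 = p.1 (apply it to R r) (7) no r at q.1 has (R r).1 = q'.1, and no r at
q'.1 has (R r).1 = q.1.
(a) p, p', q, q' are not bad for R'. p: R' p = p', no loop by (1). If r ≠ p, r.1 = p.1, (R' r).1 = p'.1: r = q gives q'.1 = p'.1, against (5); r = p' or q' is against (1) or (3); otherwise R' r = R r,
against (6). p': r ≠ p', r.1 = p'.1, (R' r).1 = p.1: r = q' against (5), r = p, q against (1), (2); otherwise against (6). q: R' q = q', no loop by (4); r ≠ q, r.1 = q.1, (R' r).1 = q'.1: r = p gives p'.1 = q'.1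
against (5); r = p' or q' against (2), (4); otherwise (7). q': the same with (7).
(b) r not in {p, p', q, q'} and bad for R': R' r = R r. If it is a loop then r is bad for R. Otherwise there is t ≠ r, t.1 = r.1, (R' t).1 = (R r).1. If t is not in {p, p', q, q'} then R' t = R t and r is bad
for R. t = p: r.1 = p.1, (R r).1 = p'.1, against (6). t = p': r.1 = p'.1, (R r).1 = p.1, against (6). t = q, q': against (7).
(Suggestion: first prove a lemma: for all r, t with t ≠ r, t.1 = r.1, (R' t).1 = (R' r).1 one has R' r = R r and R' t = R t.) -/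
theorem br_sw_bad {V : Type} [DecidableEq V] (R : PM (V × Fin 3)) (p p' : V × Fin 3) (h : Far R p p') :
    ¬ BadPt (brSw R p p') p ∧ ∀ r, BadPt (brSw R p p') r → BadPt R r := by
  obtain ⟨e1, e2, e3, e4, e5⟩ := br_sw_apply R p p' h
  obtain ⟨h1, h2, h3, h4, h5, h6, h7⟩ := h
  generalize brSw R p p' = R' at *
  have h6' : ∀ r, r.1 = p'.1 → (R.1 r).1 ≠ p.1 := by
    intro r hr hr2
    have := h6 (R.1 r) hr2
    rw [br_inv] at this
    exact this hr
  have h7' : ∀ r, r.1 = (R.1 p').1 → (R.1 r).1 ≠ (R.1 p).1 := by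
    intro r hr hr2
    have := h7 (R.1 r) hr2
    rw [br_inv] at this
    exact this hr
  have A1 := br4_aux R R' p p' (R.1 p) (R.1 p') e1 e3 h1 h3 (Or.inr h5) e5 h6
  have A2 := br4_aux R R' p' p (R.1 p') (R.1 p) e2 e4 h1.symm h2.symm (Or.inl h5)
    (fun r ha hb hc hd => e5 r hb ha hd hc) h6'
  have A3 := br4_aux R R' (R.1 p) (R.1 p') p p' e3 e1 h4 h2 (Or.inr h5.symm)
    (fun r ha hb hc hd => e5 r hc hd ha hb) h7
  have A4 := br4_aux R R' (R.1 p') (R.1 p) p' p e4 e2 h4.symm h3.symm (Or.inl h5.symm)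
    (fun r ha hb hc hd => e5 r hd hc hb ha) h7'
  have B : ∀ a b : V × Fin 3, R'.1 a = b → b.1 ≠ a.1 →
      (∀ t, t ≠ a → t.1 = a.1 → (R'.1 t).1 ≠ (R'.1 a).1) → ¬ BadPt R' a := by
    intro a b hab hne hA hbad
    rcases hbad with hb | ⟨t, ht1, ht2, ht3⟩
    · rw [hab] at hb
      exact hne hb
    · exact hA t ht1 ht2 ht3
  have B1 := B p p' e1 h1 A1
  have B2 := B p' p e2 h1.symm A2
  have B3 := B (R.1 p) (R.1 p') e3 h4 A3
  have B4 := B (R.1 p') (R.1 p) e4 h4.symm A4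
  refine ⟨B1, ?_⟩
  intro r hr
  have r1 : r ≠ p := fun hh => B1 (hh ▸ hr)
  have r2 : r ≠ p' := fun hh => B2 (hh ▸ hr)
  have r3 : r ≠ R.1 p := fun hh => B3 (hh ▸ hr)
  have r4 : r ≠ R.1 p' := fun hh => B4 (hh ▸ hr)
  have hRr := e5 r r1 r2 r3 r4
  rcases hr with hb | ⟨t, ht1, ht2, ht3⟩
  · left
    rw [hRr] at hb
    exact hb
  · right
    have t1 : t ≠ p := fun hh => A1 r r1 (by rw [← hh]; exact ht2.symm) (by rw [← hh]; exact ht3.symm)
    have t2 : t ≠ p' := fun hh => A2 r r2 (by rw [← hh]; exact ht2.symm) (by rw [← hh]; exact ht3.symm)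
    have t3 : t ≠ R.1 p := fun hh => A3 r r3 (by rw [← hh]; exact ht2.symm) (by rw [← hh]; exact ht3.symm)
    have t4 : t ≠ R.1 p' := fun hh => A4 r r4 (by rw [← hh]; exact ht2.symm) (by rw [← hh]; exact ht3.symm)
    refine ⟨t, ht1, ht2, ?_⟩
    rw [hRr, e5 t t1 t2 t3 t4] at ht3
    exact ht3

end Pool.Agent.H38H
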