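import Mathlib
import Pool.Agent.Lib.H38H.BR.Defs

/-!
H38H, chunk BR5 (M): almost all points are far from a given point.
-/

set_option autoImplicit false

namespace Pool.Agent.H38H

open Classical

theorem br5_at {V : Type} [Fintype V] (v : V) :
    (Finset.univ.filter (fun x : V × Fin 3 => x.1 = v)).card ≤ 3 := by
  have h1 : (Finset.univ.filter (fun x : V × Fin 3 => x.1 = v)).card ≤
      (Finset.univ : Finset (Fin 3)).card := by
    refine Finset.card_le_card_of_injOn (fun x => x.2) (fun _ _ => Finset.mem_coe.2 (Finset.mem_univ _)) ?_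
    intro x hx y hy hxy
    have hx' := (Finset.mem_filter.1 (Finset.mem_coe.1 hx)).2
    have hy' := (Finset.mem_filter.1 (Finset.mem_coe.1 hy)).2
    exact Prod.ext (hx'.trans hy'.symm) hxy
  simpa using h1

theorem br5_at' {V : Type} [Fintype V] (R : PM (V × Fin 3)) (v : V) :
    (Finset.univ.filter (fun x : V × Fin 3 => (R.1 x).1 = v)).card ≤ 3 := by
  refine le_trans ?_ (br5_at v)
  refine Finset.card_le_card_of_injOn (fun x => R.1 x) ?_ (R.1.injective.injOn)
  intro x hx
  have hx' := (Finset.mem_filter.1 (Finset.mem_coe.1 hx)).2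
  exact Finset.mem_coe.2 (Finset.mem_filter.2 ⟨Finset.mem_univ _, hx'⟩)

/-- PROOF. The points p' which are not far are covered by: p'.1 = p.1 (3 points), p'.1 = (R p).1 (3), (R p').1 = p.1 (3, as R is injective), (R p').1 = (R p).1 (3), (R p').1 = p'.1 (these are bad points:
at most badN R), p'.1 = (R r).1 for one of the 3 points r at p.1 (at most 9), (R p').1 = (R r).1 for one of the 3 points r at (R p).1 (at most 9). Sum 30 + badN R. Work with Finset.univ.filter and card_union_le, or
with Set.ncard_union_le. -/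
theorem br_far_card {V : Type} [Fintype V] (R : PM (V × Fin 3)) (p : V × Fin 3) :
    3 * Fintype.card V ≤ Nat.card {p' : V × Fin 3 // Far R p p'} + 30 + badN R := by
  have hF : Nat.card {p' : V × Fin 3 // Far R p p'} =
      (Finset.univ.filter (fun p' : V × Fin 3 => Far R p p')).card := by
    rw [Nat.card_eq_fintype_card, Fintype.card_subtype]
  have hB : badN R = (Finset.univ.filter (fun p' : V × Fin 3 => BadPt R p')).card := by
    unfold badN
    rw [Nat.card_eq_fintype_card, Fintype.card_subtype]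
  rw [hF, hB]
  let A6 : Finset (V × Fin 3) := (Finset.univ.filter (fun r : V × Fin 3 => r.1 = p.1)).biUnion
    (fun r => Finset.univ.filter (fun x : V × Fin 3 => x.1 = (R.1 r).1))
  let A7 : Finset (V × Fin 3) := (Finset.univ.filter (fun r : V × Fin 3 => r.1 = (R.1 p).1)).biUnion
    (fun r => Finset.univ.filter (fun x : V × Fin 3 => (R.1 x).1 = (R.1 r).1))
  have h6 : A6.card ≤ 3 * 3 :=
    (Finset.card_biUnion_le_card_mul _ _ 3 (fun r _ => br5_at _)).trans
      (Nat.mul_le_mul_right 3 (br5_at _))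
  have h7 : A7.card ≤ 3 * 3 :=
    (Finset.card_biUnion_le_card_mul _ _ 3 (fun r _ => br5_at' R _)).trans
      (Nat.mul_le_mul_right 3 (br5_at _))
  have hcov : (Finset.univ : Finset (V × Fin 3)) ⊆
      (Finset.univ.filter (fun p' : V × Fin 3 => Far R p p')) ∪
      (Finset.univ.filter (fun x : V × Fin 3 => x.1 = p.1) ∪
      (Finset.univ.filter (fun x : V × Fin 3 => x.1 = (R.1 p).1) ∪
      (Finset.univ.filter (fun x : V × Fin 3 => (R.1 x).1 = p.1) ∪
      (Finset.univ.filter (fun x : V × Fin 3 => (R.1 x).1 = (R.1 p).1) ∪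
      (Finset.univ.filter (fun p' : V × Fin 3 => BadPt R p') ∪ (A6 ∪ A7)))))) := by
    intro x _
    by_contra hx
    simp only [Finset.mem_union, Finset.mem_filter, Finset.mem_univ, true_and, not_or] at hx
    obtain ⟨x0, x1, x2, x3, x4, x5, x6, x7⟩ := hx
    apply x0
    refine ⟨x1, x2, x3, x4, fun h => x5 (Or.inl h), ?_, ?_⟩
    · intro r hr h
      apply x6
      exact Finset.mem_biUnion.2 ⟨r, Finset.mem_filter.2 ⟨Finset.mem_univ _, hr⟩,
        Finset.mem_filter.2 ⟨Finset.mem_univ _, h.symm⟩⟩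
    · intro r hr h
      apply x7
      exact Finset.mem_biUnion.2 ⟨r, Finset.mem_filter.2 ⟨Finset.mem_univ _, hr⟩,
        Finset.mem_filter.2 ⟨Finset.mem_univ _, h.symm⟩⟩
  have hc := Finset.card_le_card hcov
  have hu : (Finset.univ : Finset (V × Fin 3)).card = 3 * Fintype.card V := by
    rw [Finset.card_univ, Fintype.card_prod, Fintype.card_fin, mul_comm]
  rw [hu] at hc
  have a1 := br5_at (V := V) p.1
  have a2 := br5_at (V := V) (R.1 p).1
  have a3 := br5_at' R p.1
  have a4 := br5_at' R (R.1 p).1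
  have u1 := Finset.card_union_le (Finset.univ.filter (fun p' : V × Fin 3 => Far R p p'))
      (Finset.univ.filter (fun x : V × Fin 3 => x.1 = p.1) ∪
      (Finset.univ.filter (fun x : V × Fin 3 => x.1 = (R.1 p).1) ∪
      (Finset.univ.filter (fun x : V × Fin 3 => (R.1 x).1 = p.1) ∪
      (Finset.univ.filter (fun x : V × Fin 3 => (R.1 x).1 = (R.1 p).1) ∪
      (Finset.univ.filter (fun p' : V × Fin 3 => BadPt R p') ∪ (A6 ∪ A7))))))
  have u2 := Finset.card_union_le (Finset.univ.filter (fun x : V × Fin 3 => x.1 = p.1))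
      (Finset.univ.filter (fun x : V × Fin 3 => x.1 = (R.1 p).1) ∪
      (Finset.univ.filter (fun x : V × Fin 3 => (R.1 x).1 = p.1) ∪
      (Finset.univ.filter (fun x : V × Fin 3 => (R.1 x).1 = (R.1 p).1) ∪
      (Finset.univ.filter (fun p' : V × Fin 3 => BadPt R p') ∪ (A6 ∪ A7)))))
  have u3 := Finset.card_union_le (Finset.univ.filter (fun x : V × Fin 3 => x.1 = (R.1 p).1))
      (Finset.univ.filter (fun x : V × Fin 3 => (R.1 x).1 = p.1) ∪
      (Finset.univ.filter (fun x : V × Fin 3 => (R.1 x).1 = (R.1 p).1) ∪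
      (Finset.univ.filter (fun p' : V × Fin 3 => BadPt R p') ∪ (A6 ∪ A7))))
  have u4 := Finset.card_union_le (Finset.univ.filter (fun x : V × Fin 3 => (R.1 x).1 = p.1))
      (Finset.univ.filter (fun x : V × Fin 3 => (R.1 x).1 = (R.1 p).1) ∪
      (Finset.univ.filter (fun p' : V × Fin 3 => BadPt R p') ∪ (A6 ∪ A7)))
  have u5 := Finset.card_union_le (Finset.univ.filter (fun x : V × Fin 3 => (R.1 x).1 = (R.1 p).1))
      (Finset.univ.filter (fun p' : V × Fin 3 => BadPt R p') ∪ (A6 ∪ A7))
  have u6 := Finset.card_union_le (Finset.univ.filter (fun p' : V × Fin 3 => BadPt R p')) (A6 ∪ A7)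
  have u7 := Finset.card_union_le A6 A7
  omega

end Pool.Agent.H38H
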