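import Mathlib
import Pool.Agent.Lib.H38H.BR.B4
import Pool.Agent.Lib.H38H.BR.B5

/-!
H38H, chunk BR6 (M/L): double counting of the switchings.
-/

set_option autoImplicit false

namespace Pool.Agent.H38H

open Classical

theorem br6_badN {V : Type} [Fintype V] (R : PM (V × Fin 3)) :
    badN R = (Finset.univ.filter (fun p => BadPt R p)).card := by
  unfold badN
  rw [Nat.card_eq_fintype_card, Fintype.card_subtype]

/-- the points near `p` -/
noncomputable def br6Near {V : Type} [Fintype V] (R : PM (V × Fin 3)) (p : V × Fin 3) :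
    Finset (V × Fin 3) :=
  Finset.univ.filter (fun q => q.1 = p.1) ∪
    (Finset.univ.filter (fun r : V × Fin 3 => r.1 = p.1)).biUnion
      (fun r => Finset.univ.filter (fun q : V × Fin 3 => (R.1 r).1 = q.1))

theorem br6_three {V : Type} [Fintype V] (v : V) :
    (Finset.univ.filter (fun q : V × Fin 3 => q.1 = v)).card = 3 := by
  have h : Finset.univ.filter (fun q : V × Fin 3 => q.1 = v)
      = ({v} : Finset V) ×ˢ (Finset.univ : Finset (Fin 3)) := by
    ext q
    simp only [Finset.mem_filter, Finset.mem_univ, true_and, Finset.mem_product,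
      Finset.mem_singleton, and_true]
  rw [h, Finset.card_product, Finset.card_singleton, Finset.card_univ, Fintype.card_fin]

theorem br6_three' {V : Type} [Fintype V] (v : V) :
    (Finset.univ.filter (fun q : V × Fin 3 => v = q.1)).card = 3 := by
  have h : Finset.univ.filter (fun q : V × Fin 3 => v = q.1)
      = Finset.univ.filter (fun q : V × Fin 3 => q.1 = v) := by
    ext q
    simp only [Finset.mem_filter, Finset.mem_univ, true_and, eq_comm]
  rw [h, br6_three]

theorem br6_near_card {V : Type} [Fintype V] (R : PM (V × Fin 3)) (p : V × Fin 3) :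
    (br6Near R p).card ≤ 12 := by
  unfold br6Near
  refine (Finset.card_union_le _ _).trans ?_
  rw [br6_three]
  have h : ((Finset.univ.filter (fun r : V × Fin 3 => r.1 = p.1)).biUnion
      (fun r => Finset.univ.filter (fun q : V × Fin 3 => (R.1 r).1 = q.1))).card ≤ 3 * 3 := by
    refine (Finset.card_biUnion_le_card_mul _ _ 3 fun r _ => ?_).trans (le_of_eq ?_)
    · rw [br6_three']
    · rw [br6_three]
  omega

theorem br6_mem_near {V : Type} [Fintype V] (R : PM (V × Fin 3)) (p p' : V × Fin 3)
    (hb : BadPt R p) (hF : Far R p p') : R.1 p ∈ br6Near (brSw R p p') p := by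
  obtain ⟨-, -, -, -, h5⟩ := br_sw_apply R p p' hF
  unfold br6Near
  rw [Finset.mem_union]
  by_cases hq : (R.1 p).1 = p.1
  · left
    simp only [Finset.mem_filter, Finset.mem_univ, true_and]
    exact hq
  · right
    rcases hb with hb | ⟨r, hr1, hr2, hr3⟩
    · exact absurd hb hq
    · rw [Finset.mem_biUnion]
      refine ⟨r, ?_, ?_⟩
      · simp only [Finset.mem_filter, Finset.mem_univ, true_and]
        exact hr2
      · simp only [Finset.mem_filter, Finset.mem_univ, true_and]
        rw [h5 r hr1 ?_ ?_ ?_]
        · exact hr3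
        · intro h
          exact hF.1 (by rw [← h, hr2])
        · intro h
          exact hq (by rw [← h, hr2])
        · intro h
          exact hF.2.2.1 (by rw [← h, hr2])

theorem br6_lt {V : Type} [Fintype V] (R : PM (V × Fin 3)) (p p' : V × Fin 3)
    (hb : BadPt R p) (hF : Far R p p') : badN (brSw R p p') < badN R := by
  obtain ⟨h1, h2⟩ := br_sw_bad R p p' hF
  rw [br6_badN, br6_badN]
  apply Finset.card_lt_card
  rw [Finset.ssubset_iff_of_subset]
  · refine ⟨p, ?_, ?_⟩
    · simp only [Finset.mem_filter, Finset.mem_univ, true_and]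
      exact hb
    · simp only [Finset.mem_filter, Finset.mem_univ, true_and]
      exact h1
  · intro r hr
    simp only [Finset.mem_filter, Finset.mem_univ, true_and] at hr ⊢
    exact h2 r hr

/-- PROOF. n = 3 card V. For R with badN R = k + 1 choose a bad point p(R) (badN R > 0). Left side ≤ number of pairs (R, p') with badN R = k + 1 and Far R (p R) p' (br_far_card: for each R at least
n - 30 - (k + 1) points p'; Nat.card_sigma or a sum). Map (R, p') to (R', (p, q)), R' = brSw R (p R) p', p = p R, q = R p. Then badN R' ≤ k: by br_sw_bad the bad points of R' are bad for R and different from p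
(Nat.card / Set.ncard strictly monotone). The map is injective: p' = R' p (br_sw_apply) and R = brConj R' q p' (brConj_conj). The target: (p, q) with q in Near(R', p), where Near(R', p) = {q : q.1 = p.1 or there is r, r.1 = p.1,
(R' r).1 = q.1}, at most 3 + 9 = 12 points. Indeed p is bad for R: a loop gives q.1 = p.1; otherwise there is r ≠ p, r.1 = p.1, (R r).1 = q.1; r ≠ q (or q.1 = p.1, fine); r ≠ p', R p' by Far (1), (3); so R' r = R r.
The number of (p, q) for given R' is at most n * 12 = 36 card V. -/
theorem br_level {V : Type} [Fintype V] (k : ℕ) :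
    Nat.card {R : PM (V × Fin 3) // badN R = k + 1} * (3 * Fintype.card V - (31 + k)) ≤
      36 * Fintype.card V * Nat.card {R : PM (V × Fin 3) // badN R ≤ k} := by
  rcases isEmpty_or_nonempty V with hV | hV
  · rw [Fintype.card_eq_zero]
    simp only [mul_zero, Nat.zero_sub, zero_mul, le_refl]
  have : Fintype (PM (V × Fin 3)) := Fintype.ofFinite _
  rw [Nat.card_eq_fintype_card, Nat.card_eq_fintype_card, Fintype.card_subtype,
    Fintype.card_subtype]
  -- a bad point
  have hex : ∀ R : PM (V × Fin 3), badN R = k + 1 → ∃ p, BadPt R p := by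
    intro R hR
    rw [br6_badN] at hR
    have h1 : (Finset.univ.filter (fun p => BadPt R p)).Nonempty := by
      rw [← Finset.card_pos]
      omega
    obtain ⟨p, hp⟩ := h1
    simp only [Finset.mem_filter, Finset.mem_univ, true_and] at hp
    exact ⟨p, hp⟩
  choose! P hP using hex
  set A : Finset (PM (V × Fin 3)) := Finset.univ.filter (fun R => badN R = k + 1) with hA
  set B : Finset (PM (V × Fin 3)) := Finset.univ.filter (fun R => badN R ≤ k) with hB
  let S : Finset (Σ _ : PM (V × Fin 3), V × Fin 3) :=
    A.sigma (fun R => Finset.univ.filter (fun p' => Far R (P R) p'))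
  let T : Finset (Σ _ : PM (V × Fin 3) × (V × Fin 3), V × Fin 3) :=
    (B ×ˢ (Finset.univ : Finset (V × Fin 3))).sigma (fun x => br6Near x.1 x.2)
  have h1 : A.card * (3 * Fintype.card V - (31 + k)) ≤ S.card := by
    show _ ≤ (A.sigma _).card
    rw [Finset.card_sigma, ← smul_eq_mul, ← Finset.sum_const]
    refine Finset.sum_le_sum fun R hR => ?_
    have h2 := br_far_card R (P R)
    rw [Nat.card_eq_fintype_card, Fintype.card_subtype] at h2
    have h3 : badN R = k + 1 := (Finset.mem_filter.1 hR).2
    omega
  have h4 : T.card ≤ 36 * Fintype.card V * B.card := by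
    show (Finset.sigma _ _).card ≤ _
    rw [Finset.card_sigma]
    refine (Finset.sum_le_card_nsmul _ _ 12 fun x _ => br6_near_card x.1 x.2).trans ?_
    rw [Finset.card_product, Finset.card_univ, Fintype.card_prod, Fintype.card_fin, smul_eq_mul]
    apply le_of_eq
    ring
  have h5 : S.card ≤ T.card := by
    apply Finset.card_le_card_of_injOn
      (fun x : (Σ _ : PM (V × Fin 3), V × Fin 3) =>
        (⟨(brSw x.1 (P x.1) x.2, P x.1), x.1.1 (P x.1)⟩ : Σ _ : PM (V × Fin 3) × (V × Fin 3), V × Fin 3))
    · intro x hx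
      have hx' : x ∈ A.sigma (fun R => Finset.univ.filter (fun p' => Far R (P R) p')) := hx
      rw [Finset.mem_sigma] at hx'
      obtain ⟨hx1, hx2⟩ := hx'
      have hx3 : badN x.1 = k + 1 := (Finset.mem_filter.1 hx1).2
      have hx4 : Far x.1 (P x.1) x.2 := (Finset.mem_filter.1 hx2).2
      have hx5 := hP x.1 hx3
      show _ ∈ Finset.sigma _ _
      rw [Finset.mem_sigma, Finset.mem_product]
      refine ⟨⟨?_, Finset.mem_univ _⟩, br6_mem_near _ _ _ hx5 hx4⟩
      rw [hB, Finset.mem_filter]
      refine ⟨Finset.mem_univ _, ?_⟩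
      have h6 := br6_lt x.1 (P x.1) x.2 hx5 hx4
      show badN (brSw x.1 (P x.1) x.2) ≤ k
      omega
    · intro x hx y hy hxy
      have hx' : x ∈ A.sigma (fun R => Finset.univ.filter (fun p' => Far R (P R) p')) := hx
      have hy' : y ∈ A.sigma (fun R => Finset.univ.filter (fun p' => Far R (P R) p')) := hy
      rw [Finset.mem_sigma] at hx' hy'
      have hx4 : Far x.1 (P x.1) x.2 := (Finset.mem_filter.1 hx'.2).2
      have hy4 : Far y.1 (P y.1) y.2 := (Finset.mem_filter.1 hy'.2).2
      have h6 := Sigma.mk.inj hxy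
      have h7 : (brSw x.1 (P x.1) x.2, P x.1) = (brSw y.1 (P y.1) y.2, P y.1) := h6.1
      have h8 : x.1.1 (P x.1) = y.1.1 (P y.1) := eq_of_heq h6.2
      have h9 : brSw x.1 (P x.1) x.2 = brSw y.1 (P y.1) y.2 := (Prod.mk.inj h7).1
      have h10 : P x.1 = P y.1 := (Prod.mk.inj h7).2
      have h11 : x.2 = y.2 := by
        have h12 := (br_sw_apply x.1 (P x.1) x.2 hx4).1
        have h13 := (br_sw_apply y.1 (P y.1) y.2 hy4).1
        rw [← h12, ← h13, h9, h10]
      have h14 : x.1 = y.1 := by
        have h15 : brConj (brSw x.1 (P x.1) x.2) (x.1.1 (P x.1)) x.2 = x.1 :=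
          brConj_conj _ _ _
        have h16 : brConj (brSw y.1 (P y.1) y.2) (y.1.1 (P y.1)) y.2 = y.1 :=
          brConj_conj _ _ _
        rw [← h15, ← h16, h9, h8, h11]
      obtain ⟨x1, x2⟩ := x
      obtain ⟨y1, y2⟩ := y
      simp only at h11 h14
      subst h11
      subst h14
      rfl
  exact h1.trans (h5.trans h4)

end Pool.Agent.H38H
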