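import Mathlib
import Pool.Agent.Lib.H38H.BR.B2
import Pool.Agent.Lib.H38H.BR.B6

/-!
H38H, chunk BR7 (S/M): a positive proportion of the pairings is simple.
-/

set_option autoImplicit false

namespace Pool.Agent.H38H

open Classical

private theorem br7_simple {V : Type} [Finite V] (R : PM (V × Fin 3)) (h : badN R ≤ 0) : Simple R := by
  have h0 : Nat.card {p : V × Fin 3 // BadPt R p} = 0 := Nat.le_zero.mp h
  rw [Finite.card_eq_zero_iff] at h0
  refine ⟨fun p hp => h0.false ⟨p, Or.inl hp.symm⟩, fun p q hpq hR => ?_⟩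
  by_contra hne
  exact h0.false ⟨p, Or.inr ⟨q, fun e => hne e.symm, hpq.symm, hR.symm⟩⟩

private theorem br7_step {V : Type} [Fintype V] (hV : 32 ≤ Fintype.card V) (k : ℕ) (hk : k ≤ 17) :
    Nat.card {R : PM (V × Fin 3) // badN R ≤ k + 1} ≤ 25 * Nat.card {R : PM (V × Fin 3) // badN R ≤ k} := by
  have h1 : Nat.card {R : PM (V × Fin 3) // badN R ≤ k + 1} ≤
      Nat.card {R : PM (V × Fin 3) // badN R ≤ k} + Nat.card {R : PM (V × Fin 3) // badN R = k + 1} := by
    have e1 : Nat.card {R : PM (V × Fin 3) // badN R ≤ k + 1} =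
        Set.ncard {R : PM (V × Fin 3) | badN R ≤ k + 1} := rfl
    have e2 : Nat.card {R : PM (V × Fin 3) // badN R ≤ k} =
        Set.ncard {R : PM (V × Fin 3) | badN R ≤ k} := rfl
    have e3 : Nat.card {R : PM (V × Fin 3) // badN R = k + 1} =
        Set.ncard {R : PM (V × Fin 3) | badN R = k + 1} := rfl
    rw [e1, e2, e3]
    refine le_trans (Set.ncard_le_ncard ?_ (Set.toFinite _)) (Set.ncard_union_le _ _)
    intro R hR
    have hR' : badN R ≤ k + 1 := hR
    rcases Nat.lt_or_ge k (badN R) with h | h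
    · exact Or.inr (show badN R = k + 1 by omega)
    · exact Or.inl (show badN R ≤ k from h)
  have h2 := br_level (V := V) k
  obtain ⟨N, hN⟩ : ∃ N, N = Fintype.card V := ⟨_, rfl⟩
  obtain ⟨l, hl⟩ : ∃ l, l = Nat.card {R : PM (V × Fin 3) // badN R = k + 1} := ⟨_, rfl⟩
  obtain ⟨F, hF⟩ : ∃ F, F = Nat.card {R : PM (V × Fin 3) // badN R ≤ k} := ⟨_, rfl⟩
  rw [← hN] at hV h2
  rw [← hl, ← hF] at h2
  rw [← hl, ← hF] at h1
  rw [← hF]
  have h3 : 3 * N ≤ 2 * (3 * N - (31 + k)) := by omega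
  have h4 : l * (3 * N) ≤ (24 * F) * (3 * N) := by
    calc l * (3 * N) ≤ l * (2 * (3 * N - (31 + k))) := Nat.mul_le_mul_left _ h3
      _ = 2 * (l * (3 * N - (31 + k))) := by ring
      _ ≤ 2 * (36 * N * F) := Nat.mul_le_mul_left _ h2
      _ = (24 * F) * (3 * N) := by ring
  have h5 : l ≤ 24 * F := Nat.le_of_mul_le_mul_right h4 (by omega)
  omega

/-- PROOF. F k = number of R with badN R ≤ k, l k = number of R with badN R = k; F (k+1) = F k + l (k+1). For k ≤ 17: 3 N - (31 + k) ≥ 3 N - 48 and 2 (3 N - 48) ≥ 3 N as N ≥ 32, so br_level gives l (k+1) * 3 N ≤ 72 N F k,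
l (k+1) ≤ 24 F k, F (k+1) ≤ 25 F k. Induction: F 18 ≤ 25^18 F 0. br_markov: P ≤ 2 F 18. badN R = 0 iff there are no bad points iff Simple R (unfold BadPt, Simple; br_finite or Finite (V × Fin 3)). -/
theorem br_simple {V : Type} [Fintype V] (hV : 32 ≤ Fintype.card V) :
    Nat.card (PM (V × Fin 3)) ≤ 2 * 25 ^ 18 * Nat.card {R : PM (V × Fin 3) // Simple R} := by
  have h1 : ∀ k, k ≤ 18 → Nat.card {R : PM (V × Fin 3) // badN R ≤ k} ≤
      25 ^ k * Nat.card {R : PM (V × Fin 3) // badN R ≤ 0} := by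
    intro k
    induction k with
    | zero => intro _; simp
    | succ k ih =>
      intro hk
      calc Nat.card {R : PM (V × Fin 3) // badN R ≤ k + 1}
          ≤ 25 * Nat.card {R : PM (V × Fin 3) // badN R ≤ k} := br7_step hV k (by omega)
        _ ≤ 25 * (25 ^ k * Nat.card {R : PM (V × Fin 3) // badN R ≤ 0}) :=
            Nat.mul_le_mul_left _ (ih (by omega))
        _ = 25 ^ (k + 1) * Nat.card {R : PM (V × Fin 3) // badN R ≤ 0} := by ring
  have h2 : Nat.card {R : PM (V × Fin 3) // badN R ≤ 0} ≤ Nat.card {R : PM (V × Fin 3) // Simple R} := by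
    have e1 : Nat.card {R : PM (V × Fin 3) // badN R ≤ 0} =
        Set.ncard {R : PM (V × Fin 3) | badN R ≤ 0} := rfl
    have e2 : Nat.card {R : PM (V × Fin 3) // Simple R} =
        Set.ncard {R : PM (V × Fin 3) | Simple R} := rfl
    rw [e1, e2]
    exact Set.ncard_le_ncard (fun R hR => br7_simple R hR) (Set.toFinite _)
  calc Nat.card (PM (V × Fin 3)) ≤ 2 * Nat.card {R : PM (V × Fin 3) // badN R ≤ 18} := br_markov
    _ ≤ 2 * (25 ^ 18 * Nat.card {R : PM (V × Fin 3) // badN R ≤ 0}) :=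
        Nat.mul_le_mul_left _ (h1 18 le_rfl)
    _ ≤ 2 * (25 ^ 18 * Nat.card {R : PM (V × Fin 3) // Simple R}) :=
        Nat.mul_le_mul_left _ (Nat.mul_le_mul_left _ h2)
    _ = 2 * 25 ^ 18 * Nat.card {R : PM (V × Fin 3) // Simple R} := by ring

end Pool.Agent.H38H
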