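import Mathlib
import Pool.Agent.Lib.H38H.BR.B7
import Pool.Agent.Lib.H38H.BR.B12
import Pool.Agent.Lib.H38H.PR4
import Pool.Agent.Lib.H38H.PR6

/-!
H38H, chunk BR13 (S/M): the number of connected cubic graphs is at least c X_N.
-/

set_option autoImplicit false

namespace Pool.Agent.H38H

open Classical

/-- every simple pairing gives a connected cubic graph or is disconnected -/
theorem br13_count (N : ℕ) (hN : N ≠ 0) :
    Nat.card {R : PM (Fin N × Fin 3) // Simple R} ≤
      Nat.card {R : PM (Fin N × Fin 3) // ∃ G : SimpleGraph (Fin N), Cubic G ∧ G.Connected ∧ Over G R} +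
        Nat.card {R : PM (Fin N × Fin 3) // BrDisc R} := by
  have hfin : Finite (PM (Fin N × Fin 3)) := pr4_finite
  have hne : Nonempty (Fin N) := ⟨⟨0, Nat.pos_of_ne_zero hN⟩⟩
  have h1 : {R : PM (Fin N × Fin 3) | Simple R} ⊆
      {R : PM (Fin N × Fin 3) | ∃ G : SimpleGraph (Fin N), Cubic G ∧ G.Connected ∧ Over G R} ∪
        {R : PM (Fin N × Fin 3) | BrDisc R} := by
    intro R hR
    obtain ⟨G, hG, hO⟩ := exists_over hR
    by_cases hc : G.Connected
    · exact Or.inl ⟨G, hG, hc, hO⟩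
    · exact Or.inr (br_disc_of hO hc)
  have h2 := (Set.ncard_le_ncard h1 (Set.toFinite _)).trans (Set.ncard_union_le _ _)
  exact h2

/-- PROOF. K = 2 * 25^18, c = 1/(2 K), N₀ = max 32 (16 K). card_cubic with Q = Connected: (number of graphs) * 6^N = number of R such that there is a cubic connected G with Over G R. Every simple R which is not BrDisc is
such an R (exists_over, br_disc_of). So this number is ≥ #Simple - #BrDisc ≥ pm (3N)/K - (8/N) pm (3N) ≥ pm (3N)/(2K) (br_simple, card_PM', br_disc_le with N = 2 M, 4/M = 8/N ≤ 1/(2K)). pm (3 N) = (3N - 1)!! for even N, X N =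
(3N-1)!!/6^N. -/
theorem br_conn : ∃ c : ℝ, 0 < c ∧ ∃ N₀ : ℕ, ∀ N : ℕ, N₀ ≤ N → Even N →
    c * X N ≤ (Nat.card {G : SimpleGraph (Fin N) // Cubic G ∧ G.Connected} : ℝ) := by
  obtain ⟨K, hK⟩ : ∃ K : ℕ, K = 2 * 25 ^ 18 := ⟨_, rfl⟩
  have hKpos : 0 < K := by rw [hK]; positivity
  have hKR : (0 : ℝ) < K := by exact_mod_cast hKpos
  refine ⟨1 / (2 * K), by positivity, max 32 (16 * K), ?_⟩
  intro N hN he
  have hN32 : 32 ≤ N := le_of_max_le_left hN
  have hNK : 16 * K ≤ N := le_of_max_le_right hN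
  obtain ⟨M, hM⟩ := he
  have hM2 : N = 2 * M := by omega
  have hM1 : 1 ≤ M := by omega
  have h1 := br_simple (V := Fin N) (by rw [Fintype.card_fin]; exact hN32)
  have h2 := br13_count N (by omega)
  have h3 := card_cubic (V := Fin N) (fun G => G.Connected)
  have h4 : (Nat.card {R : PM (Fin N × Fin 3) // BrDisc R} : ℝ) ≤ 4 / M * (pm (3 * N) : ℝ) := by
    rw [hM2]
    exact br_disc_le M hM1
  have h5 : Nat.card (PM (Fin N × Fin 3)) = pm (3 * N) := by
    rw [card_PM', Nat.card_prod, Nat.card_fin, Nat.card_fin, mul_comm]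
  rw [Fintype.card_fin] at h3
  rw [h5] at h1
  rw [← h3] at h2
  have hX : X N = (pm (3 * N) : ℝ) / 6 ^ N := by
    unfold X pm
    rw [if_pos]
    rw [hM2]
    exact ⟨3 * M, by ring⟩
  generalize Nat.card {R : PM (Fin N × Fin 3) // BrDisc R} = D at h2 h4
  generalize Nat.card {R : PM (Fin N × Fin 3) // Simple R} = S at h1 h2
  generalize Nat.card {G : SimpleGraph (Fin N) // Cubic G ∧ G.Connected} = g at h2 ⊢
  rw [hX]
  generalize pm (3 * N) = P at h1 h4 ⊢
  rw [← hK] at h1
  have h1R : (P : ℝ) ≤ K * S := by exact_mod_cast h1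
  have h2R : (S : ℝ) ≤ g * 6 ^ N + D := by exact_mod_cast h2
  have h6 : (0 : ℝ) < 6 ^ N := by positivity
  have hMR : (8 : ℝ) * K ≤ M := by
    have : 8 * K ≤ M := by omega
    exact_mod_cast this
  have hMpos : (0 : ℝ) < M := by linarith
  have hP : (0 : ℝ) ≤ P := Nat.cast_nonneg _
  have h7 : (4 : ℝ) / M ≤ 1 / (2 * K) := by
    rw [div_le_div_iff₀ hMpos (by positivity)]
    linarith
  have h8 : (D : ℝ) ≤ 1 / (2 * K) * P := h4.trans (mul_le_mul_of_nonneg_right h7 hP)
  have h9 : (P : ℝ) / K ≤ S := by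
    rw [div_le_iff₀ hKR]
    linarith
  have h10 : (P : ℝ) / K = 2 * (1 / (2 * K) * P) := by
    field_simp
  rw [← mul_div_assoc, div_le_iff₀ h6]
  linarith

end Pool.Agent.H38H
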