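import Mathlib
import Pool.Agent.Lib.H38H.BR.Defs

/-!
H38H, chunk BR14 (M): the graph with the hanging piece is cubic.
-/

set_option autoImplicit false

namespace Pool.Agent.H38H

open Classical

/-- PROOF. hang_ll, hang_lr, hang_rr. Neighbours of inl u: if u is not in e: Sum.inl '' (G.neighborSet u) (then s(u,v) ≠ e for all v), ncard 3 (Set.ncard_image_of_injective). If e = s(u,y): (Sum.inl '' (G.neighborSet u \ {y})) ∪ {inr 0}, and
y is in the neighbour set: 2 + 1 = 3. Neighbours of inr 0, e = s(x,y), x ≠ y: {inl x, inl y, inr 1}. Neighbours of inr i, i ≠ 0: the image under inr of a set of three elements of Fin 6 found by decide (1: 0 2 3; 2: 1 4 5; 3: 1 4 5;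
4: 2 3 5; 5: 2 3 4). -/
theorem br_hang_cubic {V : Type} (G : SimpleGraph V) (hG : Cubic G) (e : Sym2 V) (he : e ∈ G.edgeSet) :
    Cubic (hang G e) := by
  have hrl : ∀ (i : Fin 6) (u : V), (hang G e).Adj (Sum.inr i) (Sum.inl u) ↔ u ∈ e ∧ i = 0 := by
    intro i u
    rw [SimpleGraph.adj_comm, hang_lr]
  intro a
  rcases a with u | i
  · by_cases hu : u ∈ e
    · obtain ⟨y, rfl⟩ := Sym2.mem_iff_exists.mp hu
      have huy : G.Adj u y := he
      have h1 : (hang G s(u, y)).neighborSet (Sum.inl u) =
          insert (Sum.inr 0) (Sum.inl '' (G.neighborSet u \ {y})) := by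
        ext b
        rcases b with v | j
        · simp only [SimpleGraph.mem_neighborSet, hang_ll, Set.mem_insert_iff, Set.mem_image,
            Set.mem_sdiff, Set.mem_singleton_iff, reduceCtorEq, false_or, Sum.inl.injEq,
            exists_eq_right]
          constructor
          · rintro ⟨h1, h2⟩
            exact ⟨h1, fun h3 => h2 (by rw [h3])⟩
          · rintro ⟨h1, h2⟩
            refine ⟨h1, fun h3 => h2 ?_⟩
            rcases Sym2.eq_iff.mp h3 with h4 | h4
            · exact h4.2
            · exact h4.2.trans h4.1
        · simp only [SimpleGraph.mem_neighborSet, hang_lr, Set.mem_insert_iff, Set.mem_image,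
            Set.mem_sdiff, Set.mem_singleton_iff, Sum.inr.injEq, reduceCtorEq, and_false,
            exists_false, or_false, hu, true_and]
      have hfin : (G.neighborSet u).Finite := Set.finite_of_ncard_ne_zero (by rw [hG u]; norm_num)
      have hmem : y ∈ G.neighborSet u := huy
      rw [h1, Set.ncard_insert_of_notMem (hs := (hfin.subset (fun x hx => hx.1)).image _),
        Set.ncard_image_of_injective _ Sum.inl_injective,
        Set.ncard_sdiff_singleton_of_mem hmem, hG u]
      rintro ⟨v, -, hv⟩
      cases hv
    · have h1 : (hang G e).neighborSet (Sum.inl u) = Sum.inl '' (G.neighborSet u) := by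
        ext b
        rcases b with v | j
        · simp only [SimpleGraph.mem_neighborSet, hang_ll, Set.mem_image, Sum.inl.injEq,
            exists_eq_right]
          constructor
          · exact fun h => h.1
          · refine fun h => ⟨h, fun h3 => hu ?_⟩
            rw [← h3]
            exact Sym2.mem_mk_left u v
        · simp only [SimpleGraph.mem_neighborSet, hang_lr, Set.mem_image, reduceCtorEq, and_false,
            exists_false, hu, false_and]
      rw [h1, Set.ncard_image_of_injective _ Sum.inl_injective, hG u]
  · by_cases hi : i = 0
    · subst hi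
      induction e with
      | _ x y =>
        have hxy : G.Adj x y := he
        have h1 : (hang G s(x, y)).neighborSet (Sum.inr 0) =
            {Sum.inl x, Sum.inl y, Sum.inr 1} := by
          ext b
          rcases b with v | j
          · simp only [SimpleGraph.mem_neighborSet, hrl, Set.mem_insert_iff, Sum.inl.injEq,
              Set.mem_singleton_iff, reduceCtorEq, or_false, Sym2.mem_iff, and_true]
          · simp only [SimpleGraph.mem_neighborSet, hang_rr, Set.mem_insert_iff, Sum.inr.injEq,
              Set.mem_singleton_iff, reduceCtorEq, false_or]
            revert j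
            decide
        rw [h1, Set.ncard_insert_of_notMem, Set.ncard_pair]
        · simp
        · simp only [Set.mem_insert_iff, Sum.inl.injEq, Set.mem_singleton_iff, reduceCtorEq,
            or_false]
          exact hxy.ne
    · have h1 : (hang G e).neighborSet (Sum.inr i) =
          ((Finset.univ.filter (fun j => s(i, j) ∈ pieceE)).map Function.Embedding.inr :
            Finset (V ⊕ Fin 6)) := by
        ext b
        rcases b with v | j
        · simp only [SimpleGraph.mem_neighborSet, hrl, hi, and_false, Finset.coe_map,
            Finset.coe_filter, Finset.mem_univ, true_and, Function.Embedding.inr_apply,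
            Set.mem_image, reduceCtorEq, exists_false]
        · simp only [SimpleGraph.mem_neighborSet, hang_rr, Finset.coe_map,
            Finset.coe_filter, Finset.mem_univ, true_and, Function.Embedding.inr_apply,
            Set.mem_image, Sum.inr.injEq, exists_eq_right, Set.mem_ofPred_eq]
      rw [h1, Set.ncard_coe_finset, Finset.card_map]
      have h2 : ∀ i : Fin 6, i ≠ 0 →
          (Finset.univ.filter (fun j => s(i, j) ∈ pieceE)).card = 3 := by
        decide
      convert h2 i hi

end Pool.Agent.H38H
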