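import Mathlib
import Pool.Agent.Lib.H38H.BR.Defs

/-!
H38H, chunk BR15 (S/M): the graph with the hanging piece is connected, and the hanging edge is a bridge.
-/

set_option autoImplicit false

namespace Pool.Agent.H38H

theorem br15_rr {V : Type} (G : SimpleGraph V) (e : Sym2 V) (i j : Fin 6) (h : s(i, j) ∈ pieceE) :
    (hang G e).Reachable (Sum.inr i) (Sum.inr j) :=
  ((hang_rr G e i j).2 h).reachable

open Classical

/-- PROOF. If G.Adj u v then inl u, inl v are reachable from each other in hang G e: directly if s(u,v) ≠ e, through inr 0 if s(u,v) = e. So all inl u are connected (induction on walks / Relation.ReflTransGen, SimpleGraph.reachable_iff_reflTransGen).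
inr 0 is adjacent to inl x, x ∈ e; inr 0 ~ inr 1 ~ inr 2, inr 3; inr 2 ~ inr 4, inr 5 (decide). -/
theorem br_hang_conn {V : Type} (G : SimpleGraph V) (hG : G.Connected) (e : Sym2 V) (he : e ∈ G.edgeSet) :
    (hang G e).Connected := by
  induction e using Sym2.ind with
  | _ x y =>
    have h1 : ∀ u v, G.Adj u v → (hang G s(x, y)).Reachable (Sum.inl u) (Sum.inl v) := by
      intro u v huv
      by_cases h : s(u, v) = s(x, y)
      · have a1 : (hang G s(x, y)).Adj (Sum.inl u) (Sum.inr 0) :=
          (hang_lr _ _ _ _).2 ⟨by rw [← h]; exact Sym2.mem_mk_left u v, rfl⟩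
        have a2 : (hang G s(x, y)).Adj (Sum.inl v) (Sum.inr 0) :=
          (hang_lr _ _ _ _).2 ⟨by rw [← h]; exact Sym2.mem_mk_right u v, rfl⟩
        exact a1.reachable.trans a2.reachable.symm
      · exact ((hang_ll _ _ _ _).2 ⟨huv, h⟩).reachable
    have h2 : ∀ u v, (hang G s(x, y)).Reachable (Sum.inl u) (Sum.inl v) := by
      intro u v
      obtain ⟨w⟩ := hG.preconnected u v
      induction w with
      | nil => exact SimpleGraph.Reachable.refl _
      | cons h _ ih => exact (h1 _ _ h).trans ih
    have a0 : (hang G s(x, y)).Reachable (Sum.inl x) (Sum.inr 0) :=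
      ((hang_lr _ _ _ _).2 ⟨Sym2.mem_mk_left x y, rfl⟩ : (hang G s(x, y)).Adj _ _).reachable
    have r01 := br15_rr G s(x, y) 0 1 (by decide)
    have r12 := br15_rr G s(x, y) 1 2 (by decide)
    have r13 := br15_rr G s(x, y) 1 3 (by decide)
    have r24 := br15_rr G s(x, y) 2 4 (by decide)
    have r25 := br15_rr G s(x, y) 2 5 (by decide)
    rw [SimpleGraph.connected_iff_exists_forall_reachable]
    refine ⟨Sum.inl x, ?_⟩
    rintro (u | i)
    · exact h2 x u
    · fin_cases i
      · exact a0
      · exact a0.trans r01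
      · exact (a0.trans r01).trans r12
      · exact (a0.trans r01).trans r13
      · exact ((a0.trans r01).trans r12).trans r24
      · exact ((a0.trans r01).trans r12).trans r25

theorem br15_dec : ∀ i j : Fin 6, s(i, j) ∈ pieceE → s(i, j) ≠ s(0, 1) → (i ≠ 0 ↔ j ≠ 0) := by
  decide

/-- PROOF. SimpleGraph.isBridge_iff. Let c : V ⊕ Fin 6 → Prop be true exactly at inr i, i ≠ 0. Adjacent vertices of (hang G e).deleteEdges {s(inr 0, inr 1)} have the same value of c (cases; inr 0 ~ inr j only for j = 1; decide), so reachable vertices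
have the same value, but inr 0 and inr 1 have not. -/
theorem br_hang_bridge {V : Type} (G : SimpleGraph V) (e : Sym2 V) :
    (hang G e).IsBridge s(Sum.inr 0, Sum.inr 1) := by
  rw [SimpleGraph.isBridge_iff]
  intro hr
  let c : V ⊕ Fin 6 → Prop := fun z => Sum.elim (fun _ => False) (fun i => i ≠ 0) z
  have hadj : ∀ a b, ((hang G e).deleteEdges {s(Sum.inr 0, Sum.inr 1)}).Adj a b → (c a ↔ c b) := by
    intro a b hab
    rw [SimpleGraph.deleteEdges_adj] at hab
    obtain ⟨h1, h2⟩ := hab
    rcases a with u | i <;> rcases b with v | j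
    · exact Iff.rfl
    · have := (hang_lr G e u j).1 h1
      simp [c, this.2]
    · have := (hang_lr G e v i).1 h1.symm
      simp [c, this.2]
    · have h3 := (hang_rr G e i j).1 h1
      apply br15_dec i j h3
      intro h4
      apply h2
      have h5 : Sym2.map (Sum.inr : Fin 6 → V ⊕ Fin 6) s(i, j) = Sym2.map Sum.inr s(0, 1) := by rw [h4]
      exact h5
  have hreach : ∀ a b, ((hang G e).deleteEdges {s(Sum.inr 0, Sum.inr 1)}).Reachable a b → (c a ↔ c b) := by
    intro a b hab
    obtain ⟨w⟩ := hab
    induction w with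
    | nil => exact Iff.rfl
    | cons h _ ih => exact (hadj _ _ h).trans ih
  have h01 := hreach _ _ hr
  simp [c] at h01

end Pool.Agent.H38H
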