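import Mathlib
import Pool.Agent.Lib.H38H.BR.Defs

/-!
H38H, chunk BR16 (M): edges of the graph with the hanging piece inside a set W.
-/

set_option autoImplicit false

namespace Pool.Agent.H38H


open Classical in
theorem b16_sub {V : Type} (G : SimpleGraph V) (e : Sym2 V)
    (W : Finset (V ⊕ Fin 6)) (A : Finset V) (B : Finset (Fin 6))
    (hA : ∀ u, u ∈ A ↔ Sum.inl u ∈ W) (hB : ∀ i, i ∈ B ↔ Sum.inr i ∈ W) :
    W.sym2.filter (fun x => x ∈ (hang G e).edgeSet) ⊆
      (((A.sym2.filter (fun x => x ∈ G.edgeSet)).erase e).image (Sym2.map Sum.inl) ∪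
        (A.filter (fun u => u ∈ e ∧ (0 : Fin 6) ∈ B)).image
          (fun u => (s(Sum.inl u, Sum.inr 0) : Sym2 (V ⊕ Fin 6)))) ∪
        (pieceE.filter (fun x => x ∈ B.sym2)).image (Sym2.map Sum.inr) := by
  intro z
  induction z with
  | _ a b =>
    rw [Finset.mem_filter, Finset.mk_mem_sym2_iff, SimpleGraph.mem_edgeSet]
    rintro ⟨⟨ha, hb⟩, hab⟩
    rcases a with u | i
    · rcases b with v | j
      · rw [hang_ll] at hab
        rw [← hA] at ha hb
        apply Finset.mem_union_left
        apply Finset.mem_union_left
        rw [Finset.mem_image]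
        refine ⟨s(u, v), ?_, rfl⟩
        rw [Finset.mem_erase, Finset.mem_filter, Finset.mk_mem_sym2_iff]
        exact ⟨hab.2, ⟨ha, hb⟩, hab.1⟩
      · rw [hang_lr] at hab
        rw [← hA] at ha
        rw [← hB] at hb
        obtain ⟨h1, rfl⟩ := hab
        apply Finset.mem_union_left
        apply Finset.mem_union_right
        rw [Finset.mem_image]
        exact ⟨u, Finset.mem_filter.mpr ⟨ha, h1, hb⟩, rfl⟩
    · rcases b with v | j
      · rw [SimpleGraph.adj_comm, hang_lr] at hab
        rw [← hA] at hb
        rw [← hB] at ha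
        obtain ⟨h1, rfl⟩ := hab
        apply Finset.mem_union_left
        apply Finset.mem_union_right
        rw [Finset.mem_image]
        exact ⟨v, Finset.mem_filter.mpr ⟨hb, h1, ha⟩, Sym2.eq_swap⟩
      · rw [hang_rr] at hab
        rw [← hB] at ha hb
        apply Finset.mem_union_right
        rw [Finset.mem_image]
        refine ⟨s(i, j), ?_, rfl⟩
        rw [Finset.mem_filter, Finset.mk_mem_sym2_iff]
        exact ⟨hab, ha, hb⟩

open Classical in
theorem b16_two {V : Type} (G : SimpleGraph V) (e : Sym2 V) (he : e ∈ G.edgeSet) (A : Finset V) :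
    ((A.sym2.filter (fun x => x ∈ G.edgeSet)).erase e).card + (A.filter (fun u => u ∈ e)).card ≤
      (A.sym2.filter (fun x => x ∈ G.edgeSet)).card + (if 0 < A.card then 1 else 0) := by
  induction e with
  | _ x y =>
    have hxy : x ≠ y := SimpleGraph.Adj.ne he
    have h1 : A.filter (fun u => u ∈ s(x, y)) ⊆ {x, y} := by
      intro u hu
      rw [Finset.mem_filter, Sym2.mem_iff] at hu
      rw [Finset.mem_insert, Finset.mem_singleton]
      exact hu.2
    have h2 : (A.filter (fun u => u ∈ s(x, y))).card ≤ 2 := by
      refine (Finset.card_le_card h1).trans ?_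
      exact Finset.card_le_two
    by_cases hx : x ∈ A
    · have hA : 0 < A.card := Finset.card_pos.mpr ⟨x, hx⟩
      rw [if_pos hA]
      by_cases hy : y ∈ A
      · have h3 : s(x, y) ∈ A.sym2.filter (fun x => x ∈ G.edgeSet) := by
          rw [Finset.mem_filter, Finset.mk_mem_sym2_iff]
          exact ⟨⟨hx, hy⟩, he⟩
        have h4 := Finset.card_erase_add_one h3
        omega
      · have h3 : A.filter (fun u => u ∈ s(x, y)) ⊆ {x} := by
          intro u hu
          have h4 := h1 hu
          rw [Finset.mem_insert, Finset.mem_singleton] at h4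
          rw [Finset.mem_singleton]
          rcases h4 with h4 | h4
          · exact h4
          · exact absurd (h4 ▸ (Finset.mem_filter.mp hu).1) hy
        have h4 := Finset.card_le_card h3
        rw [Finset.card_singleton] at h4
        have h5 := Finset.card_erase_le (s := A.sym2.filter (fun x => x ∈ G.edgeSet)) (a := s(x, y))
        omega
    · by_cases hy : y ∈ A
      · have hA : 0 < A.card := Finset.card_pos.mpr ⟨y, hy⟩
        rw [if_pos hA]
        have h3 : A.filter (fun u => u ∈ s(x, y)) ⊆ {y} := by
          intro u hu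
          have h4 := h1 hu
          rw [Finset.mem_insert, Finset.mem_singleton] at h4
          rw [Finset.mem_singleton]
          rcases h4 with h4 | h4
          · exact absurd (h4 ▸ (Finset.mem_filter.mp hu).1) hx
          · exact h4
        have h4 := Finset.card_le_card h3
        rw [Finset.card_singleton] at h4
        have h5 := Finset.card_erase_le (s := A.sym2.filter (fun x => x ∈ G.edgeSet)) (a := s(x, y))
        omega
      · have h3 : A.filter (fun u => u ∈ s(x, y)) = ∅ := by
          rw [Finset.eq_empty_iff_forall_notMem]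
          intro u hu
          have h4 := h1 hu
          rw [Finset.mem_insert, Finset.mem_singleton] at h4
          rcases h4 with h4 | h4
          · exact hx (h4 ▸ (Finset.mem_filter.mp hu).1)
          · exact hy (h4 ▸ (Finset.mem_filter.mp hu).1)
        rw [h3, Finset.card_empty]
        have h5 := Finset.card_erase_le (s := A.sym2.filter (fun x => x ∈ G.edgeSet)) (a := s(x, y))
        omega

open Classical in
/-- PROOF. The edges of hang G e inside W (hang_ll, hang_lr, hang_rr) are of three kinds: (1) s(inl u, inl v) with G.Adj u v, s(u,v) ≠ e, u, v ∈ A: their number is at most eIn G A - [e ∈ A.sym2] (they are the image of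
(A.sym2.filter (· ∈ G.edgeSet)).erase e under Sym2.map inl); (2) s(inl u, inr 0) with u ∈ e, u ∈ A, and only if 0 ∈ B: at most card (A.filter (· ∈ e)); (3) Sym2.map inr of the elements of pieceE inside B. So the set is contained in the union of three
images of Finsets. If 0 ∈ B: card (A.filter (· ∈ e)) ≤ [e ∈ A.sym2] + [A nonempty] (e = s(x,y); both in A: 2; one: 1; none: 0), and if e ∈ A.sym2 then e is in the set counted by eIn G A. -/
theorem b16_main {V : Type} (G : SimpleGraph V) (e : Sym2 V) (he : e ∈ G.edgeSet)
    (W : Finset (V ⊕ Fin 6)) (A : Finset V) (B : Finset (Fin 6))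
    (hA : ∀ u, u ∈ A ↔ Sum.inl u ∈ W) (hB : ∀ i, i ∈ B ↔ Sum.inr i ∈ W) :
    eIn (hang G e) W ≤ eIn G A + (if 0 ∈ B ∧ 0 < A.card then 1 else 0) +
      (pieceE.filter (fun x => x ∈ B.sym2)).card := by
  unfold eIn
  refine (Finset.card_le_card (b16_sub G e W A B hA hB)).trans ?_
  refine (Finset.card_union_le _ _).trans ?_
  refine add_le_add ((Finset.card_union_le _ _).trans ?_) Finset.card_image_le
  refine (add_le_add Finset.card_image_le Finset.card_image_le).trans ?_
  by_cases h0 : (0 : Fin 6) ∈ B
  · have h1 := b16_two G e he A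
    simp only [h0, and_true, true_and]
    exact h1
  · have h5 := Finset.card_erase_le (s := A.sym2.filter (fun x => x ∈ G.edgeSet)) (a := e)
    simp only [h0, and_false, false_and, Finset.filter_false, Finset.card_empty, if_false]
    exact h5

/-- PROOF. The edges of hang G e inside W (hang_ll, hang_lr, hang_rr) are of three kinds: (1) s(inl u, inl v) with G.Adj u v, s(u,v) ≠ e, u, v ∈ A: their number is at most eIn G A - [e ∈ A.sym2] (they are the image of
(A.sym2.filter (· ∈ G.edgeSet)).erase e under Sym2.map inl); (2) s(inl u, inr 0) with u ∈ e, u ∈ A, and only if 0 ∈ B: at most card (A.filter (· ∈ e)); (3) Sym2.map inr of the elements of pieceE inside B. So the set is contained in the union of three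
images of Finsets. If 0 ∈ B: card (A.filter (· ∈ e)) ≤ [e ∈ A.sym2] + [A nonempty] (e = s(x,y); both in A: 2; one: 1; none: 0), and if e ∈ A.sym2 then e is in the set counted by eIn G A. -/
theorem br_hang_eIn {V : Type} (G : SimpleGraph V) (e : Sym2 V) (he : e ∈ G.edgeSet)
    (W : Finset (V ⊕ Fin 6)) (A : Finset V) (B : Finset (Fin 6))
    (hA : ∀ u, u ∈ A ↔ Sum.inl u ∈ W) (hB : ∀ i, i ∈ B ↔ Sum.inr i ∈ W) :
    eIn (hang G e) W ≤ eIn G A + (if 0 ∈ B ∧ 0 < A.card then 1 else 0) +
      (pieceE.filter (fun x => x ∈ B.sym2)).card := by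
  have h := b16_main G e he W A B hA hB
  convert h

end Pool.Agent.H38H
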