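import Mathlib
import Pool.Agent.Lib.H38H.BR.B16

/-!
H38H, chunk BR17 (S/M): the piece is the only set of 5 vertices with 7 edges.
-/

set_option autoImplicit false

namespace Pool.Agent.H38H


set_option maxRecDepth 100000 in
/-- the finite statement (proved) -/
theorem br_check : ∀ B : Finset (Fin 6), B.card ≤ 5 →
    7 ≤ min (6 - B.card) ((5 - B.card).choose 2) + (if 0 ∈ B ∧ 0 < 5 - B.card then 1 else 0) +
      (pieceE.filter (fun x => x ∈ B.sym2)).card → B = {1, 2, 3, 4, 5} := by
  decide +kernel

open Classical in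
theorem br17_le {V : Type} (G : SimpleGraph V) (A : Finset V) : eIn G A ≤ A.card.choose 2 := by
  unfold eIn
  rw [← Sym2.card_image_offDiag]
  apply Finset.card_le_card
  intro z hz
  induction z using Sym2.ind with
  | _ x y =>
    rw [Finset.mem_filter, Finset.mk_mem_sym2_iff] at hz
    rw [Finset.mem_image]
    refine ⟨(x, y), ?_, rfl⟩
    rw [Finset.mem_offDiag]
    refine ⟨hz.1.1, hz.1.2, ?_⟩
    have h2 : G.Adj x y := hz.2
    exact h2.ne

open Classical in
/-- PROOF. A = W.preimage inl (or W.toLeft), B = W.toRight, A.card + B.card = 5. br_hang_eIn. b = eIn G A satisfies b ≤ A.card + 1 (Good) and b ≤ A.card.choose 2 (the edges inside A are elements of A.sym2 which are not on the diagonal: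
Finset.card_sym2, or SimpleGraph: the number of pairs; e.g. Sym2.card_image_offDiag). It remains the finite statement br_check
(a = 5 - B.card). Then A is empty and W = {inr 1, .., inr 5}. -/
theorem br_unique {V : Type} (G : SimpleGraph V) (hG : Good G) (e : Sym2 V) (he : e ∈ G.edgeSet)
    (W : Finset (V ⊕ Fin 6)) (hW : W.card = 5) (h7 : 7 ≤ eIn (hang G e) W) :
    W = {Sum.inr 1, Sum.inr 2, Sum.inr 3, Sum.inr 4, Sum.inr 5} := by
  have hc : W.toLeft.card + W.toRight.card = W.card := Finset.card_toLeft_add_card_toRight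
  have h1 := br_hang_eIn G e he W W.toLeft W.toRight (fun u => Finset.mem_toLeft) (fun i => Finset.mem_toRight)
  have h2 := hG.2.2 W.toLeft (by omega)
  have h3 := br17_le G W.toLeft
  have hA : W.toLeft.card = 5 - W.toRight.card := by omega
  have hB : W.toRight.card ≤ 5 := by omega
  have h4 : W.toRight = {1, 2, 3, 4, 5} := by
    apply br_check _ hB
    rw [hA] at h1 h2 h3
    have h5 : eIn G W.toLeft ≤ min (6 - W.toRight.card) ((5 - W.toRight.card).choose 2) := le_min (by omega) h3
    refine h7.trans (h1.trans ?_)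
    have h6 : (pieceE.filter (fun x => x ∈ W.toRight.sym2)).card = (pieceE.filter (fun x => x ∈ W.toRight.sym2)).card := rfl
    refine Nat.add_le_add (Nat.add_le_add h5 (le_of_eq ?_)) (le_of_eq ?_)
    · congr 1
    · congr 1
  have h5 : W.toRight.card = 5 := by rw [h4]; decide
  have h6 : W.toLeft = ∅ := by
    rw [← Finset.card_eq_zero]
    omega
  ext z
  rcases z with u | i
  · have : u ∉ W.toLeft := by rw [h6]; exact Finset.notMem_empty u
    rw [Finset.mem_toLeft] at this
    simp [this]
  · rw [← Finset.mem_toRight, h4]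
    simp

end Pool.Agent.H38H
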