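import Mathlib
import Pool.Agent.Lib.H38H.BR.Defs

/-!
H38H, chunk BR18 (S/M): the number eIn of the piece; invariance of eIn.
-/

set_option autoImplicit false

namespace Pool.Agent.H38H

/-- the seven edges of the piece -/
def br18_E : Finset (Sym2 (Fin 6)) :=
  {s(1, 2), s(1, 3), s(2, 4), s(2, 5), s(3, 4), s(3, 5), s(4, 5)}

theorem br18_card : br18_E.card = 7 := by decide

theorem br18_mem : ∀ x ∈ br18_E, x ∈ pieceE ∧ ∀ i, i ∈ x → i ≠ 0 := by decide

open Classical

/-- PROOF. S.sym2 corresponds to (S.map φ).sym2 under Sym2.map φ (Finset.card_bij or card_nbij with Sym2.map φ; Finset.mk_mem_sym2_iff). -/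
theorem br_eIn_map {V U : Type} (G : SimpleGraph V) (H : SimpleGraph U) (φ : V ≃ U)
    (h : ∀ u v, H.Adj (φ u) (φ v) ↔ G.Adj u v) (S : Finset V) :
    eIn H (S.map φ.toEmbedding) = eIn G S := by
  unfold eIn
  symm
  apply Finset.card_bij (fun e _ => Sym2.map φ e)
  · intro e he
    induction e using Sym2.ind with
    | _ x y =>
      rw [Finset.mem_filter, Finset.mk_mem_sym2_iff] at he
      rw [Sym2.map_mk, Finset.mem_filter, Finset.mk_mem_sym2_iff]
      refine ⟨⟨?_, ?_⟩, (h x y).2 he.2⟩
      · exact Finset.mem_map.2 ⟨x, he.1.1, rfl⟩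
      · exact Finset.mem_map.2 ⟨y, he.1.2, rfl⟩
  · intro a _ b _ hab
    exact Sym2.map.injective φ.injective hab
  · intro b hb
    induction b using Sym2.ind with
    | _ x y =>
      rw [Finset.mem_filter, Finset.mk_mem_sym2_iff] at hb
      obtain ⟨⟨h1, h2⟩, h3⟩ := hb
      obtain ⟨u, hu, rfl⟩ := Finset.mem_map.1 h1
      obtain ⟨v, hv, rfl⟩ := Finset.mem_map.1 h2
      refine ⟨s(u, v), ?_, rfl⟩
      rw [Finset.mem_filter, Finset.mk_mem_sym2_iff]
      exact ⟨⟨hu, hv⟩, (h u v).1 h3⟩

/-- PROOF. The seven elements of pieceE other than s(0,1) give seven different edges inside the set (hang_rr): the image of this set of 7 elements under Sym2.map Sum.inr (injective) is contained in the set counted by eIn. -/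
theorem br_piece_eIn {V : Type} (G : SimpleGraph V) (e : Sym2 V) :
    7 ≤ eIn (hang G e) {Sum.inr 1, Sum.inr 2, Sum.inr 3, Sum.inr 4, Sum.inr 5} := by
  unfold eIn
  have hinj : Function.Injective (Sym2.map (Sum.inr : Fin 6 → V ⊕ Fin 6)) :=
    Sym2.map.injective Sum.inr_injective
  calc 7 = br18_E.card := br18_card.symm
    _ = (br18_E.image (Sym2.map (Sum.inr : Fin 6 → V ⊕ Fin 6))).card :=
        (Finset.card_image_of_injective _ hinj).symm
    _ ≤ _ := by
      apply Finset.card_le_card
      intro z hz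
      obtain ⟨x, hx, rfl⟩ := Finset.mem_image.1 hz
      obtain ⟨h1, h2⟩ := br18_mem x hx
      induction x using Sym2.ind with
      | _ i j =>
        rw [Sym2.map_mk, Finset.mem_filter, Finset.mk_mem_sym2_iff]
        have hi := h2 i (Sym2.mem_mk_left i j)
        have hj := h2 j (Sym2.mem_mk_right i j)
        have key : ∀ k : Fin 6, k ≠ 0 → (Sum.inr k : V ⊕ Fin 6) ∈
            ({Sum.inr 1, Sum.inr 2, Sum.inr 3, Sum.inr 4, Sum.inr 5} : Finset (V ⊕ Fin 6)) := by
          intro k hk
          fin_cases k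
          · exact absurd rfl hk
          all_goals simp
        exact ⟨⟨key i hi, key j hj⟩, (hang_rr G e i j).2 h1⟩

end Pool.Agent.H38H
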