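import Mathlib
import Pool.Agent.Lib.H38H.BR.B17
import Pool.Agent.Lib.H38H.BR.B18

/-!
H38H, chunk BR19 (M): the graph with the hanging piece determines all data.
-/

set_option autoImplicit false

namespace Pool.Agent.H38H

open Classical

theorem b19_adj {M : ℕ} (s : Finset (Fin (M + 6))) (hs : s.card = M) (G : SimpleGraph (Fin M))
    (e : Sym2 (Fin M)) (a b : Fin M ⊕ Fin 6) :
    (brG s hs G e).Adj (brE s hs a) (brE s hs b) ↔ (hang G e).Adj a b := by
  unfold brG
  rw [SimpleGraph.comap_adj, Equiv.symm_apply_apply, Equiv.symm_apply_apply]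

theorem b19_mem {M : ℕ} (s : Finset (Fin (M + 6))) (hs : s.card = M) (x : Fin (M + 6)) :
    x ∉ s ↔ ∃ i : Fin 6, brE s hs (Sum.inr i) = x := by
  have h6 : sᶜ.card = 6 := by rw [Finset.card_compl, Fintype.card_fin, hs]; omega
  rw [← Finset.mem_compl, ← Finset.mem_coe, ← Finset.range_orderEmbOfFin sᶜ h6]
  constructor
  · rintro ⟨i, rfl⟩
    refine ⟨i, ?_⟩
    unfold brE
    rw [finSumEquivOfFinset_inr]
  · rintro ⟨i, rfl⟩
    refine ⟨i, ?_⟩
    unfold brE
    rw [finSumEquivOfFinset_inr]

/-- the five vertices of the piece -/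
def b19P (M : ℕ) : Finset (Fin M ⊕ Fin 6) :=
  {Sum.inr 1, Sum.inr 2, Sum.inr 3, Sum.inr 4, Sum.inr 5}

theorem b19P_inr {M : ℕ} (i : Fin 6) : (Sum.inr i : Fin M ⊕ Fin 6) ∈ b19P M ↔ i ≠ 0 := by
  unfold b19P
  simp only [Finset.mem_insert, Finset.mem_singleton, Sum.inr.injEq]
  revert i
  decide

theorem b19P_inl {M : ℕ} (i : Fin M) : (Sum.inl i : Fin M ⊕ Fin 6) ∉ b19P M := by
  unfold b19P
  simp

theorem b19P_card (M : ℕ) : (b19P M).card = 5 := by
  have h : b19P M = ({1, 2, 3, 4, 5} : Finset (Fin 6)).map Function.Embedding.inr := by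
    ext a
    rcases a with u | i
    · simp [b19P_inl]
    · rw [b19P_inr]
      simp only [Finset.mem_map, Function.Embedding.inr_apply, Sum.inr.injEq, exists_eq_right]
      revert i
      decide
  rw [h, Finset.card_map]
  rfl

theorem b19_set {M : ℕ} (s t : Finset (Fin (M + 6))) (hs : s.card = M) (ht : t.card = M)
    (G H : SimpleGraph (Fin M)) (hH : Good H) (e f : Sym2 (Fin M))
    (hf : f ∈ H.edgeSet) (h : brG s hs G e = brG t ht H f) :
    (b19P M).map (brE s hs).toEmbedding = (b19P M).map (brE t ht).toEmbedding := by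
  have h1 : 7 ≤ eIn (hang G e) (b19P M) := by
    have := br_piece_eIn G e
    unfold b19P
    convert this
  have h2 : eIn (brG s hs G e) ((b19P M).map (brE s hs).toEmbedding) = eIn (hang G e) (b19P M) :=
    br_eIn_map (hang G e) (brG s hs G e) (brE s hs) (b19_adj s hs G e) (b19P M)
  have h3 : ((((b19P M).map (brE s hs).toEmbedding).map (brE t ht).symm.toEmbedding).map
      (brE t ht).toEmbedding) = (b19P M).map (brE s hs).toEmbedding := by
    ext x
    simp
  have h4 := br_eIn_map (hang H f) (brG t ht H f) (brE t ht) (b19_adj t ht H f)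
    (((b19P M).map (brE s hs).toEmbedding).map (brE t ht).symm.toEmbedding)
  rw [h3, ← h, h2] at h4
  have h5 : ((b19P M).map (brE s hs).toEmbedding).map (brE t ht).symm.toEmbedding = b19P M := by
    have := br_unique H hH f hf
      (((b19P M).map (brE s hs).toEmbedding).map (brE t ht).symm.toEmbedding)
      (by rw [Finset.card_map, Finset.card_map, b19P_card]) (by rw [← h4]; exact h1)
    rw [this]
    unfold b19P
    congr!
  rw [← h3, h5]

theorem b19_zero {M : ℕ} (s t : Finset (Fin (M + 6))) (hs : s.card = M) (ht : t.card = M)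
    (G H : SimpleGraph (Fin M)) (e f : Sym2 (Fin M))
    (h : brG s hs G e = brG t ht H f)
    (hP : (b19P M).map (brE s hs).toEmbedding = (b19P M).map (brE t ht).toEmbedding) :
    brE s hs (Sum.inr 0) = brE t ht (Sum.inr 0) := by
  have h01 : (hang G e).Adj (Sum.inr 0) (Sum.inr 1) := by
    rw [hang_rr]
    decide
  have h1 := (b19_adj s hs G e _ _).mpr h01
  rw [h] at h1
  have hmem : ∀ a, brE s hs a ∈ (b19P M).map (brE t ht).toEmbedding ↔ a ∈ b19P M := by
    intro a
    rw [← hP, Finset.mem_map_equiv, Equiv.symm_apply_apply]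
  obtain ⟨b, hb⟩ := (brE t ht).surjective (brE s hs (Sum.inr 0))
  obtain ⟨c, hc⟩ := (brE t ht).surjective (brE s hs (Sum.inr 1))
  rw [← hb, ← hc, b19_adj] at h1
  have h2 : b ∉ b19P M := by
    intro h2
    have h3 : brE t ht b ∈ (b19P M).map (brE t ht).toEmbedding := by
      rw [Finset.mem_map_equiv, Equiv.symm_apply_apply]
      exact h2
    rw [hb, hmem, b19P_inr] at h3
    exact h3 rfl
  have h3 : c ∈ b19P M := by
    have h3 : brE s hs (Sum.inr 1) ∈ (b19P M).map (brE t ht).toEmbedding := by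
      rw [hmem, b19P_inr]
      decide
    rw [← hc, Finset.mem_map_equiv, Equiv.symm_apply_apply] at h3
    exact h3
  rw [← hb]
  congr 1
  rcases b with u | i
  · rcases c with v | j
    · exact absurd h3 (b19P_inl v)
    · rw [hang_lr] at h1
      rw [b19P_inr] at h3
      exact absurd h1.2 h3
  · rw [b19P_inr, not_not] at h2
    rw [h2]

theorem b19_sub {M : ℕ} (s t : Finset (Fin (M + 6))) (hs : s.card = M) (ht : t.card = M)
    (hP : (b19P M).map (brE s hs).toEmbedding = (b19P M).map (brE t ht).toEmbedding)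
    (h0 : brE s hs (Sum.inr 0) = brE t ht (Sum.inr 0)) (x : Fin (M + 6)) (hx : x ∉ s) : x ∉ t := by
  rw [b19_mem s hs] at hx
  rw [b19_mem t ht]
  obtain ⟨i, rfl⟩ := hx
  by_cases hi : i = 0
  · exact ⟨0, by rw [hi, h0]⟩
  · have h1 : brE s hs (Sum.inr i) ∈ (b19P M).map (brE t ht).toEmbedding := by
      rw [← hP, Finset.mem_map_equiv, Equiv.symm_apply_apply, b19P_inr]
      exact hi
    rw [Finset.mem_map_equiv] at h1
    obtain ⟨b, hb⟩ := (brE t ht).surjective (brE s hs (Sum.inr i))
    rw [← hb, Equiv.symm_apply_apply] at h1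
    rcases b with u | j
    · exact absurd h1 (b19P_inl u)
    · exact ⟨j, hb⟩

/-- PROOF. W₁ = image under brE s of {inr 1, .., inr 5}, W₂ the same for t. Put K = brG s G e = brG t H f. W₁ has 5 elements and eIn K W₁ ≥ 7 (br_piece_eIn, br_eIn_map with φ = brE s); so the preimage of W₁ under brE t is a set of 5 elements with
eIn (hang H f) ≥ 7 (br_eIn_map again), by br_unique it is {inr 1, .., inr 5}: W₁ = W₂. The vertex a₁ = brE s (inr 0) is the only vertex outside W₁ which is K-adjacent to an element of W₁ (hang_rr, hang_lr: inr i with i ≠ 0 is adjacent only to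
elements inr j, and j = 0 occurs only for i = 1), the same for a₂ = brE t (inr 0), W₂. So a₁ = a₂ and the complements of s and t, which are the images of inr, i.e. W₁ ∪ {a₁} and W₂ ∪ {a₂}
(finSumEquivOfFinset_inr, Finset.range_orderEmbOfFin), are equal: s = t. Now subst; brE is the same, so hang G e = hang H f (comap by an equivalence is injective: SimpleGraph.comap_injective or apply at brE u, brE v).
u ∈ e iff (hang G e).Adj (inl u) (inr 0) iff u ∈ f, so e = f (Sym2.ext). G.Adj u v iff (hang G e).Adj (inl u) (inl v) or s(u,v) = e (e is an edge of G), so G = H. -/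
theorem br_inj {M : ℕ} (s t : Finset (Fin (M + 6))) (hs : s.card = M) (ht : t.card = M)
    (G H : SimpleGraph (Fin M)) (hG : Good G) (hH : Good H) (e f : Sym2 (Fin M)) (he : e ∈ G.edgeSet)
    (hf : f ∈ H.edgeSet) (h : brG s hs G e = brG t ht H f) : s = t ∧ G = H ∧ e = f := by
  have hP := b19_set s t hs ht G H hH e f hf h
  have h0 := b19_zero s t hs ht G H e f h hP
  have hst : s = t := by
    ext x
    have h1 := b19_sub s t hs ht hP h0 x
    have h2 := b19_sub t s ht hs hP.symm h0.symm x
    tauto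
  subst hst
  refine ⟨rfl, ?_⟩
  have hadj : ∀ a b, (hang G e).Adj a b ↔ (hang H f).Adj a b := by
    intro a b
    rw [← b19_adj s hs G e, ← b19_adj s hs H f, h]
  have hef : e = f := by
    apply Sym2.ext
    intro u
    have h1 := hadj (Sum.inl u) (Sum.inr 0)
    rw [hang_lr, hang_lr] at h1
    simpa using h1
  subst hef
  refine ⟨?_, rfl⟩
  ext u v
  have h1 := hadj (Sum.inl u) (Sum.inl v)
  rw [hang_ll, hang_ll] at h1
  by_cases huv : s(u, v) = e
  · rw [← SimpleGraph.mem_edgeSet, ← SimpleGraph.mem_edgeSet, huv]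
    exact ⟨fun _ => hf, fun _ => he⟩
  · simpa [huv] using h1

end Pool.Agent.H38H
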