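import Mathlib
import Pool.Agent.Lib.H38H.BR.B14
import Pool.Agent.Lib.H38H.BR.B15
import Pool.Agent.Lib.H38H.BR.B19

/-!
H38H, chunk BR20 (M): counting the graphs with a hanging piece.
-/

set_option autoImplicit false

namespace Pool.Agent.H38H

open Classical

/-- PROOF. brE s hs is an isomorphism from hang G e to brG s hs G e (SimpleGraph.Iso; comap). Cubic: neighbour sets correspond (br_hang_cubic). Connected: SimpleGraph.Iso.connected_iff (br_hang_conn). Bridge: transport of br_hang_bridge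
(for instance through reachability in deleteEdges, or the closed set argument: the image of {inr 1, .., inr 5}). -/
theorem br_brG {M : ℕ} (s : Finset (Fin (M + 6))) (hs : s.card = M) (G : SimpleGraph (Fin M)) (hG : Good G)
    (e : Sym2 (Fin M)) (he : e ∈ G.edgeSet) :
    Cubic (brG s hs G e) ∧ (brG s hs G e).Connected ∧ ∃ a, (brG s hs G e).IsBridge a := by
  refine ⟨?_, ?_, ?_⟩
  · intro x
    obtain ⟨a, rfl⟩ := (brE s hs).surjective x
    have h1 : (brG s hs G e).neighborSet (brE s hs a) = (brE s hs) '' ((hang G e).neighborSet a) := by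
      ext y
      obtain ⟨b, rfl⟩ := (brE s hs).surjective y
      rw [SimpleGraph.mem_neighborSet, b19_adj, Function.Injective.mem_set_image (brE s hs).injective,
        SimpleGraph.mem_neighborSet]
    rw [h1, Set.ncard_image_of_injective _ (brE s hs).injective]
    exact br_hang_cubic G hG.1 e he a
  · have φ : hang G e ≃g brG s hs G e := ⟨brE s hs, b19_adj s hs G e _ _⟩
    exact φ.connected_iff.mp (br_hang_conn G hG.2.1 e he)
  · refine ⟨s(brE s hs (Sum.inr 0), brE s hs (Sum.inr 1)), ?_⟩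
    rw [SimpleGraph.isBridge_iff]
    intro h
    have hb := br_hang_bridge G e
    rw [SimpleGraph.isBridge_iff] at hb
    apply hb
    let f : (brG s hs G e).deleteEdges {s(brE s hs (Sum.inr 0), brE s hs (Sum.inr 1))} →g
        (hang G e).deleteEdges {s(Sum.inr 0, Sum.inr 1)} :=
      ⟨(brE s hs).symm, by
        intro x y hxy
        obtain ⟨a, rfl⟩ := (brE s hs).surjective x
        obtain ⟨b, rfl⟩ := (brE s hs).surjective y
        rw [SimpleGraph.deleteEdges_adj, b19_adj] at hxy
        rw [SimpleGraph.deleteEdges_adj, Equiv.symm_apply_apply, Equiv.symm_apply_apply]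
        refine ⟨hxy.1, fun h2 => hxy.2 ?_⟩
        rw [Set.mem_singleton_iff] at h2 ⊢
        have h3 := congrArg (Sym2.map (brE s hs)) h2
        exact h3⟩
    have h2 := h.map f
    have h3 : ∀ a, f (brE s hs a) = a := fun a => Equiv.symm_apply_apply _ _
    rw [h3, h3] at h2
    exact h2

/-- PROOF. The map (s, (G, e)) ↦ brG s G e, from {s // s.card = M} × {(G,e) // ..}, is injective by br_inj. The number of s is choose (M+6) M = choose (M+6) 6 (Nat.card {s // s.card = M} = (Finset.powersetCard M univ).card). -/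
theorem br_count (M : ℕ) :
    (M + 6).choose 6 * Nat.card {q : SimpleGraph (Fin M) × Sym2 (Fin M) // Good q.1 ∧ q.2 ∈ q.1.edgeSet} ≤
      Nat.card {G : SimpleGraph (Fin (M + 6)) // Cubic G ∧ G.Connected ∧ ∃ e, G.IsBridge e} := by
  have h1 : Nat.card {s : Finset (Fin (M + 6)) // s.card = M} = (M + 6).choose 6 := by
    rw [Nat.card_eq_fintype_card, Fintype.card_finset_len, Fintype.card_fin, Nat.choose_symm_add]
  rw [← h1, ← Nat.card_prod]
  let F : {s : Finset (Fin (M + 6)) // s.card = M} ×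
      {q : SimpleGraph (Fin M) × Sym2 (Fin M) // Good q.1 ∧ q.2 ∈ q.1.edgeSet} →
      {G : SimpleGraph (Fin (M + 6)) // Cubic G ∧ G.Connected ∧ ∃ e, G.IsBridge e} := fun p =>
    ⟨brG p.1.1 p.1.2 p.2.1.1 p.2.1.2, br_brG p.1.1 p.1.2 p.2.1.1 p.2.2.1 p.2.1.2 p.2.2.2⟩
  apply Nat.card_le_card_of_injective F
  rintro ⟨⟨s, hs⟩, ⟨⟨G, e⟩, hG, he⟩⟩ ⟨⟨t, ht⟩, ⟨⟨H, f⟩, hH, hf⟩⟩ h
  have h2 : brG s hs G e = brG t ht H f := congrArg Subtype.val h
  obtain ⟨rfl, rfl, rfl⟩ := br_inj s t hs ht G H hG hH e f he hf h2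
  rfl

end Pool.Agent.H38H
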