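import Mathlib
import Pool.Agent.Lib.H38H.BR.Defs

/-!
H38H, chunk BR21 (S/M): the number of edges.
-/

set_option autoImplicit false

namespace Pool.Agent.H38H

open Classical

theorem br21_one (M : ℕ) (G : SimpleGraph (Fin M)) (h : Cubic G) :
    2 * Nat.card {e : Sym2 (Fin M) // e ∈ G.edgeSet} = 3 * M := by
  have h1 := G.sum_degrees_eq_twice_card_edges
  have h2 : ∀ v, G.degree v = 3 := by
    intro v
    rw [← h v, Set.ncard_eq_toFinset_card', Set.toFinset_card, SimpleGraph.card_neighborSet_eq_degree]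
  rw [Finset.sum_congr rfl (fun v _ => h2 v), Finset.sum_const, Finset.card_univ, Fintype.card_fin,
    smul_eq_mul, mul_comm] at h1
  rw [h1]
  congr 1
  rw [Nat.card_eq_fintype_card, Fintype.card_subtype]
  congr 1
  ext e
  rw [Finset.mem_filter, SimpleGraph.mem_edgeFinset]
  exact ⟨fun h => h.2, fun h => ⟨Finset.mem_univ _, h⟩⟩

/-- PROOF. For a cubic G on Fin M: 2 * card of the edge set = sum of the degrees = 3 M (SimpleGraph.sum_degrees_eq_twice_card_edges; G.degree v = (neighborSet v).ncard). Nat.card of the subtype of the product is the sum over G of Nat.card {e // e ∈ G.edgeSet}. -/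
theorem br_edges (M : ℕ) :
    2 * Nat.card {q : SimpleGraph (Fin M) × Sym2 (Fin M) // Good q.1 ∧ q.2 ∈ q.1.edgeSet} =
      3 * M * Nat.card {G : SimpleGraph (Fin M) // Good G} := by
  let eqv : {q : SimpleGraph (Fin M) × Sym2 (Fin M) // Good q.1 ∧ q.2 ∈ q.1.edgeSet} ≃
      (Σ G : {G : SimpleGraph (Fin M) // Good G}, {e : Sym2 (Fin M) // e ∈ G.1.edgeSet}) :=
    { toFun := fun q => ⟨⟨q.1.1, q.2.1⟩, ⟨q.1.2, q.2.2⟩⟩
      invFun := fun z => ⟨(z.1.1, z.2.1), z.1.2, z.2.2⟩
      left_inv := fun _ => rfl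
      right_inv := fun _ => rfl }
  rw [Nat.card_congr eqv, Nat.card_sigma, Finset.mul_sum]
  rw [Finset.sum_congr rfl (fun G _ => br21_one M G.1 G.2.1), Finset.sum_const, Finset.card_univ,
    smul_eq_mul, Nat.card_eq_fintype_card, mul_comm]

end Pool.Agent.H38H
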