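import Mathlib
import Pool.Agent.Lib.H38H.BR.B13
import Pool.Agent.Lib.H38H.BR.B20
import Pool.Agent.Lib.H38H.BR.B21
import Pool.Agent.Lib.H38H.PR6

/-!
H38H, chunk BR22 (M): conclusion of module BR.
-/

set_option autoImplicit false

namespace Pool.Agent.H38H

open Classical

theorem br22_card {α : Type} [Finite α] (P Q R : α → Prop) (h : ∀ a, P a → Q a ∨ R a) :
    Nat.card {a // P a} ≤ Nat.card {a // Q a} + Nat.card {a // R a} := by
  have e : ∀ T : α → Prop, Nat.card {a // T a} = Set.ncard {a | T a} := fun T => Nat.card_coe_set_eq {a | T a}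
  rw [e, e, e]
  calc Set.ncard {a | P a} ≤ Set.ncard ({a | Q a} ∪ {a | R a}) :=
        Set.ncard_le_ncard (fun a ha => h a ha) (Set.toFinite _)
    _ ≤ _ := Set.ncard_union_le _ _

/-- PROOF. #Good ≥ #(Cubic and Connected) - #(Cubic with W, W.card ≤ 5, W.card + 2 ≤ eIn G W) ≥ c X M - C X M / M^2 ≥ (c/2) X M if M ≥ M₀ (br_conn; FirstMoment with k = 5, j = 2; X_pos). -/
theorem br_good (h : FirstMoment) : ∃ c : ℝ, 0 < c ∧ ∃ M₀ : ℕ, ∀ M : ℕ, M₀ ≤ M → Even M →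
    c * X M ≤ (Nat.card {G : SimpleGraph (Fin M) // Good G} : ℝ) := by
  obtain ⟨C, N₁, hC⟩ := h 5 2
  obtain ⟨c, hc, N₂, hc2⟩ := br_conn
  refine ⟨c / 2, by positivity, max (max N₁ N₂) (⌈2 * |C| / c⌉₊ + 1), ?_⟩
  intro M hM hev
  have hM1 : N₁ ≤ M := le_trans (le_trans (le_max_left _ _) (le_max_left _ _)) hM
  have hM2 : N₂ ≤ M := le_trans (le_trans (le_max_right _ _) (le_max_left _ _)) hM
  have hM3 : ⌈2 * |C| / c⌉₊ + 1 ≤ M := le_trans (le_max_right _ _) hM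
  have h1 := hC M hM1 hev
  have h2 := hc2 M hM2 hev
  have h3 : Nat.card {G : SimpleGraph (Fin M) // Cubic G ∧ G.Connected} ≤
      Nat.card {G : SimpleGraph (Fin M) // Good G} +
      Nat.card {G : SimpleGraph (Fin M) // Cubic G ∧
        ∃ W : Finset (Fin M), W.card ≤ 5 ∧ W.card + 2 ≤ eIn G W} := by
    apply br22_card
    intro G hG
    by_cases hW : ∃ W : Finset (Fin M), W.card ≤ 5 ∧ W.card + 2 ≤ eIn G W
    · exact Or.inr ⟨hG.1, hW⟩
    · push Not at hW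
      exact Or.inl ⟨hG.1, hG.2, hW⟩
  have h3' : (Nat.card {G : SimpleGraph (Fin M) // Cubic G ∧ G.Connected} : ℝ) ≤
      (Nat.card {G : SimpleGraph (Fin M) // Good G} : ℝ) +
      (Nat.card {G : SimpleGraph (Fin M) // Cubic G ∧
        ∃ W : Finset (Fin M), W.card ≤ 5 ∧ W.card + 2 ≤ eIn G W} : ℝ) := by
    exact_mod_cast h3
  have hMr : 2 * |C| / c + 1 ≤ (M : ℝ) := by
    have h4 := Nat.le_ceil (2 * |C| / c)
    have h5 : ((⌈2 * |C| / c⌉₊ + 1 : ℕ) : ℝ) ≤ M := by exact_mod_cast hM3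
    push_cast at h5
    linarith
  have hq : 0 ≤ 2 * |C| / c := by positivity
  have hM1r : (1 : ℝ) ≤ M := by linarith
  have hMM : (M : ℝ) ≤ (M : ℝ) ^ 2 := by nlinarith
  have hX := X_pos M
  have h6 : C * X M / (M : ℝ) ^ 2 ≤ c / 2 * X M := by
    rw [div_le_iff₀ (by positivity)]
    have h7 : 2 * |C| ≤ c * (M : ℝ) ^ 2 := by
      have h8 : 2 * |C| / c ≤ (M : ℝ) ^ 2 := by linarith
      rw [div_le_iff₀ hc] at h8
      linarith
    have h9 : C ≤ |C| := le_abs_self C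
    have h10 : C ≤ c / 2 * (M : ℝ) ^ 2 := by linarith
    calc C * X M ≤ (c / 2 * (M : ℝ) ^ 2) * X M := mul_le_mul_of_nonneg_right h10 hX.le
      _ = c / 2 * X M * (M : ℝ) ^ 2 := by ring
  linarith

/-- PROOF. N = M + 6, N large and even. br_count, br_edges: 2 * (number) ≥ choose N 6 * 3 M * c X M. choose N 6 ≥ (N - 5)^6/720 ≥ (N/2)^6/720 (Nat.pow_le_choose or a direct estimate), M ≥ N/2, X N ≤ (3/4 N^3)^3 X M (X_le_sub with a = 3).
So number ≥ c'' N^7 X M ≥ c' X N / N^2. -/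
theorem manyBridged_of (h : FirstMoment) : ManyBridged := by
  obtain ⟨c, hc, M₀, hg⟩ := br_good h
  refine ⟨c / 25920, by positivity, max (M₀ + 6) 12, ?_⟩
  intro N hN hev
  have hN1 : M₀ + 6 ≤ N := le_trans (le_max_left _ _) hN
  have hN2 : 12 ≤ N := le_trans (le_max_right _ _) hN
  obtain ⟨M, rfl⟩ : ∃ M, N = M + 6 := ⟨N - 6, by omega⟩
  have hM0 : M₀ ≤ M := by omega
  have hevM : Even M := by
    obtain ⟨k, hk⟩ := hev
    exact ⟨k - 3, by omega⟩
  have h1 := hg M hM0 hevM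
  have h2 := br_count M
  have h3 := br_edges M
  have h4 := X_le_sub (M + 6) 3 hev (by omega)
  have e1 : M + 6 - 2 * 3 = M := by omega
  rw [e1] at h4
  have h5 : (((M + 6 + 1 - 6 : ℕ) : ℝ)) ^ 6 ≤ (Nat.factorial 6 : ℝ) * ((M + 6).choose 6 : ℝ) := by
    have h50 := Nat.pow_le_choose (α := ℝ) 6 (M + 6)
    have h51 : (0 : ℝ) < (Nat.factorial 6 : ℝ) := by exact_mod_cast Nat.factorial_pos 6
    rw [div_le_iff₀ h51] at h50
    rw [mul_comm (Nat.factorial 6 : ℝ)]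
    exact_mod_cast h50
  set Q := Nat.card {q : SimpleGraph (Fin M) × Sym2 (Fin M) // Good q.1 ∧ q.2 ∈ q.1.edgeSet} with hQ
  set R := Nat.card {G : SimpleGraph (Fin (M + 6)) // Cubic G ∧ G.Connected ∧ ∃ e, G.IsBridge e} with hR
  set g := Nat.card {G : SimpleGraph (Fin M) // Good G} with hgd
  have h2r : ((M + 6).choose 6 : ℝ) * (Q : ℝ) ≤ (R : ℝ) := by exact_mod_cast h2
  have h3r : 2 * (Q : ℝ) = 3 * (M : ℝ) * (g : ℝ) := by exact_mod_cast h3
  have hx := X_pos M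
  have hn : (12 : ℝ) ≤ ((M + 6 : ℕ) : ℝ) := by exact_mod_cast hN2
  set n : ℝ := ((M + 6 : ℕ) : ℝ) with hnd
  have hMn : (M : ℝ) = n - 6 := by
    rw [hnd]
    push_cast
    ring
  have e2 : ((M + 6 + 1 - 6 : ℕ) : ℝ) = n - 5 := by
    have : M + 6 + 1 - 6 = M + 1 := by omega
    rw [this, hnd]
    push_cast
    ring
  rw [e2] at h5
  have e3 : (Nat.factorial 6 : ℝ) = 720 := by norm_num [Nat.factorial]
  rw [e3] at h5
  have h6 : (n / 2) ^ 6 ≤ (n - 5) ^ 6 := pow_le_pow_left₀ (by linarith) (by linarith) 6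
  have h7 : n ^ 6 / 46080 ≤ ((M + 6).choose 6 : ℝ) := by
    have : (n / 2) ^ 6 = n ^ 6 / 64 := by ring
    linarith
  have h8 : n / 2 ≤ (M : ℝ) := by linarith
  have hg0 : c * X M ≤ (g : ℝ) := h1
  have hQ1 : 3 / 4 * n * (c * X M) ≤ (Q : ℝ) := by
    have h9 : n / 2 * (c * X M) ≤ (M : ℝ) * (g : ℝ) :=
      mul_le_mul h8 hg0 (by positivity) (by linarith)
    linarith
  have hR1 : n ^ 6 / 46080 * (3 / 4 * n * (c * X M)) ≤ (R : ℝ) :=
    (mul_le_mul h7 hQ1 (by positivity) (by positivity)).trans h2r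
  have hn0 : 0 < n := by linarith
  calc c / 25920 * X (M + 6) / n ^ 2 ≤ c / 25920 * ((3 / 4 * n ^ 3) ^ 3 * X M) / n ^ 2 := by gcongr
    _ = n ^ 6 / 46080 * (3 / 4 * n * (c * X M)) := by
      field_simp
      ring
    _ ≤ R := hR1

end Pool.Agent.H38H
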